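import Mathlib

/-!
# Brouwer's fixed point theorem (Milnor–Rogers proof)
-/

namespace Pool.Agent.Lib_helper47.R

open MeasureTheory Metric Set Polynomial
open scoped Topology NNReal ENNReal

section Interp

variable {E : Type*} [NormedAddCommGroup E] [InnerProductSpace ℝ E] [FiniteDimensional ℝ E]

lemma det_poly (A : E →L[ℝ] E) : ∃ p : ℝ[X], p.natDegree ≤ Module.finrank ℝ E ∧
    ∀ t : ℝ, p.eval t = ((1 : E →L[ℝ] E) + t • A).det := by
  classical
  let b := Module.finBasis ℝ E
  let M := LinearMap.toMatrix b b (A : E →ₗ[ℝ] E)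
  refine ⟨Matrix.det ((X : ℝ[X]) • M.map C + (1 : Matrix _ _ ℝ).map C), ?_, ?_⟩
  · have := Polynomial.natDegree_det_X_add_C_le M (1 : Matrix _ _ ℝ)
    simpa using this
  · intro t
    rw [← Polynomial.coe_evalRingHom, RingHom.map_det]
    have : (((1 : E →L[ℝ] E) + t • A).det) = Matrix.det (LinearMap.toMatrix b b
        (((1 : E →L[ℝ] E) + t • A : E →L[ℝ] E) : E →ₗ[ℝ] E)) := by
      rw [LinearMap.det_toMatrix]
    rw [this]
    congr 1
    have h2 : (((1 : E →L[ℝ] E) + t • A : E →L[ℝ] E) : E →ₗ[ℝ] E)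
        = LinearMap.id + t • (A : E →ₗ[ℝ] E) := by
      ext x; simp
    have h3 : LinearMap.toMatrix b b (LinearMap.id + t • (A : E →ₗ[ℝ] E)) = 1 + t • M := by
      rw [map_add, map_smul, LinearMap.toMatrix_id]
    rw [h2, h3]
    ext i j
    rcases eq_or_ne i j with rfl | hij
    · simp [add_comm, mul_comm t]
    · simp [Matrix.one_apply_ne hij, mul_comm t]

/-- Lagrange interpolation for `t ↦ det (1 + t A)`. -/
lemma det_interp {t0 : ℝ} (ht0 : 0 < t0) : ∃ (s : Finset ℝ) (w : ℝ → ℝ),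
    (∀ t ∈ s, 0 ≤ t ∧ t ≤ t0) ∧ ∑ t ∈ s, w t = 1 ∧
    ∀ A : E →L[ℝ] E, ((1 : E →L[ℝ] E) + A).det = ∑ t ∈ s, w t * ((1 : E →L[ℝ] E) + t • A).det := by
  classical
  set n := Module.finrank ℝ E
  have hinj : Function.Injective (fun i : ℕ => t0 * i / (n + 1) : ℕ → ℝ) := by
    intro i j hij
    have h1 : (0 : ℝ) < n + 1 := by positivity
    simp only at hij
    field_simp at hij
    exact_mod_cast hij
  set s : Finset ℝ := (Finset.range (n + 1)).image (fun i : ℕ => t0 * i / (n + 1) : ℕ → ℝ) with hs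
  have hcard : s.card = n + 1 := by
    rw [hs, Finset.card_image_of_injective _ hinj, Finset.card_range]
  have hne : s.Nonempty := by
    rw [← Finset.card_pos, hcard]; omega
  have hvs : Set.InjOn (id : ℝ → ℝ) (s : Set ℝ) := Function.injective_id.injOn
  refine ⟨s, fun t => (Lagrange.basis s id t).eval 1, ?_, ?_, ?_⟩
  · intro t ht
    simp only [hs, Finset.mem_image, Finset.mem_range] at ht
    obtain ⟨i, hi, rfl⟩ := ht
    have h1 : (0 : ℝ) < n + 1 := by positivity
    have h2 : (i : ℝ) ≤ n + 1 := by exact_mod_cast hi.le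
    constructor
    · positivity
    · rw [div_le_iff₀ h1]
      exact mul_le_mul_of_nonneg_left h2 ht0.le
  · have := congrArg (Polynomial.eval (1 : ℝ)) (Lagrange.sum_basis hvs hne)
    rw [Polynomial.eval_finsetSum, Polynomial.eval_one] at this
    exact this
  · intro A
    obtain ⟨p, hp, hpe⟩ := det_poly A
    have hdeg : p.degree < s.card := by
      rw [hcard]
      refine lt_of_le_of_lt Polynomial.degree_le_natDegree ?_
      exact_mod_cast Nat.lt_succ_of_le hp
    have h1 := Lagrange.eq_interpolate (v := (id : ℝ → ℝ)) hvs hdeg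
    have h2 := hpe 1
    rw [one_smul] at h2
    rw [← h2, h1, Lagrange.interpolate_apply, Polynomial.eval_finsetSum]
    refine Finset.sum_congr rfl fun t _ => ?_
    rw [Polynomial.eval_mul, Polynomial.eval_C, ← hpe t]
    simp [mul_comm]

end Interp

section Retraction

variable {E : Type*} [NormedAddCommGroup E] [InnerProductSpace ℝ E] [FiniteDimensional ℝ E]

omit [FiniteDimensional ℝ E] in
lemma dist_radial_le {x y : E} (hx : ‖x‖ ≤ 1) (hy : 1 < ‖y‖) :
    ‖x - (‖y‖)⁻¹ • y‖ ≤ ‖x - y‖ := by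
  have hy0 : (0 : ℝ) < ‖y‖ := by linarith
  have h1 : inner ℝ x y ≤ ‖y‖ := by
    calc inner ℝ x y ≤ ‖x‖ * ‖y‖ := real_inner_le_norm x y
      _ ≤ 1 * ‖y‖ := by gcongr
      _ = ‖y‖ := one_mul _
  have h2 : ‖x - (‖y‖)⁻¹ • y‖ ^ 2 ≤ ‖x - y‖ ^ 2 := by
    rw [norm_sub_sq_real, norm_sub_sq_real, inner_smul_right, norm_smul, norm_inv, norm_norm,
      inv_mul_cancel₀ hy0.ne']
    have h3 : (‖y‖)⁻¹ * inner ℝ x y ≥ inner ℝ x y - (‖y‖ - 1) := by
      have h4 : inner ℝ x y - (‖y‖)⁻¹ * inner ℝ x y ≤ ‖y‖ - 1 := by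
        have : inner ℝ x y - (‖y‖)⁻¹ * inner ℝ x y = (1 - (‖y‖)⁻¹) * inner ℝ x y := by ring
        rw [this]
        have h5 : 0 ≤ 1 - (‖y‖)⁻¹ := by
          rw [sub_nonneg]; exact inv_le_one_of_one_le₀ hy.le
        calc (1 - (‖y‖)⁻¹) * inner ℝ x y ≤ (1 - (‖y‖)⁻¹) * ‖y‖ := by gcongr
          _ = ‖y‖ - 1 := by rw [sub_mul, inv_mul_cancel₀ hy0.ne', one_mul]
      linarith
    nlinarith [sq_nonneg (‖y‖ - 1)]
  exact (abs_le_abs_of_sq_le_sq' h2)
where
  abs_le_abs_of_sq_le_sq' {a b : E} (h : ‖a‖ ^ 2 ≤ ‖b‖ ^ 2) : ‖a‖ ≤ ‖b‖ := by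
    exact le_of_sq_le_sq h (norm_nonneg _)
  le_of_sq_le_sq {a b : ℝ} (h : a ^ 2 ≤ b ^ 2) (hb : 0 ≤ b) : a ≤ b := by
    exact le_of_abs_le (by simpa [abs_of_nonneg hb] using abs_le_abs_of_sq h)
  abs_le_abs_of_sq {a b : ℝ} (h : a ^ 2 ≤ b ^ 2) : |a| ≤ |b| := sq_le_sq.mp h

/-- A Lipschitz map on the closed unit ball which vanishes on the sphere extends by zero. -/
lemma lipschitz_ext {g : E → E} {C : ℝ≥0} (hg : LipschitzOnWith C g (closedBall 0 1))
    (h0 : ∀ x, ‖x‖ = 1 → g x = 0) :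
    LipschitzWith C (fun x => if ‖x‖ ≤ 1 then g x else 0) := by
  have key : ∀ x y : E, ‖x‖ ≤ 1 → 1 < ‖y‖ → ‖g x‖ ≤ C * ‖x - y‖ := by
    intro x y hx hy
    have hy0 : (0 : ℝ) < ‖y‖ := by linarith
    have hz : ‖(‖y‖)⁻¹ • y‖ = 1 := by
      rw [norm_smul, norm_inv, norm_norm, inv_mul_cancel₀ hy0.ne']
    have h1 := hg.dist_le_mul x (by simpa using hx) ((‖y‖)⁻¹ • y) (by simpa using hz.le)
    rw [dist_eq_norm, dist_eq_norm, h0 _ hz, sub_zero] at h1
    exact h1.trans (by gcongr; exact dist_radial_le hx hy)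
  refine LipschitzWith.of_dist_le_mul fun x y => ?_
  rw [dist_eq_norm, dist_eq_norm]
  by_cases hx : ‖x‖ ≤ 1 <;> by_cases hy : ‖y‖ ≤ 1
  · simp only [hx, hy, if_true]
    have := hg.dist_le_mul x (by simpa using hx) y (by simpa using hy)
    rwa [dist_eq_norm, dist_eq_norm] at this
  · simp only [hx, hy, if_true, if_false, sub_zero]
    exact key x y hx (not_le.mp hy)
  · simp only [hx, hy, if_true, if_false, zero_sub, norm_neg]
    rw [norm_sub_rev]
    exact key y x hy (not_le.mp hx)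
  · simp only [hx, hy, if_false, sub_zero, norm_zero]
    positivity

/-- For small `t`, `x ↦ x + t g(x)` is injective on the closed ball and maps it onto itself. -/
lemma small_perturb {g : E → E} {C : ℝ≥0} (hg : LipschitzOnWith C g (closedBall 0 1))
    (h0 : ∀ x, ‖x‖ = 1 → g x = 0) {t : ℝ} (ht0 : 0 ≤ t) (ht : t * C < 1) :
    InjOn (fun x => x + t • g x) (closedBall 0 1) ∧
    (fun x => x + t • g x) '' (closedBall 0 1) = closedBall 0 1 := by
  set G : E → E := fun x => if ‖x‖ ≤ 1 then g x else 0 with hG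
  have hGL : LipschitzWith C G := lipschitz_ext hg h0
  have hGg : ∀ x, ‖x‖ ≤ 1 → G x = g x := fun x hx => by simp [hG, hx]
  have hGz : ∀ x, 1 < ‖x‖ → G x = 0 := fun x hx => by simp [hG, not_le.mpr hx]
  have hinj : Function.Injective (fun x => x + t • G x) := by
    intro x y hxy
    have hxy' : x + t • G x = y + t • G y := hxy
    have h1 : x - y = t • (G y - G x) := by
      rw [smul_sub]
      have h8 : x = y + t • G y - t • G x := by rw [← hxy']; abel
      nth_rewrite 1 [h8]; abel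
    have h2 : ‖x - y‖ ≤ t * C * ‖x - y‖ := by
      calc ‖x - y‖ = t * ‖G y - G x‖ := by rw [h1, norm_smul, Real.norm_of_nonneg ht0]
        _ ≤ t * (C * ‖x - y‖) := by
            gcongr
            have := hGL.dist_le_mul y x
            rw [dist_eq_norm, dist_eq_norm, norm_sub_rev y x] at this
            exact this
        _ = t * C * ‖x - y‖ := by ring
    have h3 : ‖x - y‖ = 0 := by
      by_contra hne
      have hpos : 0 < ‖x - y‖ := lt_of_le_of_ne (norm_nonneg _) (Ne.symm hne)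
      nlinarith
    exact sub_eq_zero.mp (norm_eq_zero.mp h3)
  have hsurj : Function.Surjective (fun x => x + t • G x) := by
    intro y
    have hc : ContractingWith ⟨t * C, by positivity⟩ (fun x => y - t • G x) := by
      constructor
      · exact ht
      · refine LipschitzWith.of_dist_le_mul fun a b => ?_
        rw [dist_eq_norm, dist_eq_norm]
        have : y - t • G a - (y - t • G b) = t • (G b - G a) := by rw [smul_sub]; abel
        rw [this, norm_smul, Real.norm_of_nonneg ht0]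
        have h4 := hGL.dist_le_mul b a
        rw [dist_eq_norm, dist_eq_norm, norm_sub_rev b a] at h4
        calc t * ‖G b - G a‖ ≤ t * (C * ‖a - b‖) := by gcongr
          _ = (t * C) * ‖a - b‖ := by ring
          _ = _ := rfl
    refine ⟨hc.fixedPoint, ?_⟩
    have := hc.fixedPoint_isFixedPt
    have h5 : y - t • G hc.fixedPoint = hc.fixedPoint := this
    simp only
    nth_rewrite 1 [← h5]
    abel
  constructor
  · intro x hx y hy hxy
    apply hinj
    simp only at hxy ⊢
    rw [hGg x (by simpa using hx), hGg y (by simpa using hy)]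
    exact hxy
  · ext y
    constructor
    · rintro ⟨x, hx, rfl⟩
      by_contra hy
      simp only [mem_closedBall, dist_zero_right, not_le] at hy hx
      have h6 : (x + t • g x) + t • G (x + t • g x) = x + t • G x := by
        rw [hGz _ hy, smul_zero, add_zero, hGg x hx]
      have h7 := hinj h6
      rw [h7] at hy
      linarith
    · intro hy
      obtain ⟨x, hx⟩ := hsurj y
      simp only at hx
      have hx1 : ‖x‖ ≤ 1 := by
        by_contra hx1
        rw [not_le] at hx1
        rw [hGz x hx1, smul_zero, add_zero] at hx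
        rw [hx] at hx1
        simp only [mem_closedBall, dist_zero_right] at hy
        linarith
      refine ⟨x, by simpa using hx1, ?_⟩
      simp only
      rw [← hGg x hx1]; exact hx

/-- There is no `C¹` retraction of the closed unit ball onto the sphere. -/
lemma no_retraction {ρ : E → E} {U : Set E} (hU : IsOpen U) (hBU : closedBall (0 : E) 1 ⊆ U)
    (hρ : ContDiffOn ℝ 1 ρ U) (h1 : ∀ x ∈ U, ‖ρ x‖ = 1) (hid : ∀ x, ‖x‖ = 1 → ρ x = x) : False := by
  borelize E
  set B : Set E := closedBall 0 1 with hB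
  have hBc : IsCompact B := isCompact_closedBall 0 1
  have hBconv : Convex ℝ B := convex_closedBall 0 1
  set μ : Measure E := MeasureTheory.Measure.addHaar
  have hdiff : ∀ x ∈ B, HasFDerivAt ρ (fderiv ℝ ρ x) x := fun x hx =>
    ((hρ.differentiableOn one_ne_zero).differentiableAt (hU.mem_nhds (hBU hx))).hasFDerivAt
  have hcontD : ContinuousOn (fderiv ℝ ρ) B :=
    ((hρ.continuousOn_fderiv_of_isOpen hU le_rfl)).mono hBU
  set D : E → E →L[ℝ] E := fun x => fderiv ℝ ρ x - 1 with hD
  have hDc : ContinuousOn D B := hcontD.sub continuousOn_const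
  -- determinant of derivative vanishes
  have hdet0 : ∀ x ∈ B, ((1 : E →L[ℝ] E) + D x).det = 0 := by
    intro x hx
    have e1 : (1 : E →L[ℝ] E) + D x = fderiv ℝ ρ x := by simp [hD]
    rw [e1]
    by_contra hne
    have horth : ∀ v, inner ℝ (ρ x) (fderiv ℝ ρ x v) = 0 := by
      intro v
      have hd := (hdiff x hx).norm_sq
      have hc : (fun y => ‖ρ y‖ ^ 2) =ᶠ[𝓝 x] fun _ => (1 : ℝ) := by
        filter_upwards [hU.mem_nhds (hBU hx)] with y hy
        rw [h1 y hy]; norm_num
      have hd2 : HasFDerivAt (fun y => ‖ρ y‖ ^ 2) (0 : E →L[ℝ] ℝ) x :=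
        (hasFDerivAt_const (1 : ℝ) x).congr_of_eventuallyEq hc
      have := congrArg (fun L : E →L[ℝ] ℝ => L v) (hd.unique hd2)
      simpa using this
    have hsurj : Function.Surjective (fderiv ℝ ρ x) := by
      have := (LinearMap.equivOfDetNeZero ((fderiv ℝ ρ x : E →L[ℝ] E) : E →ₗ[ℝ] E) hne).surjective
      intro v
      obtain ⟨w, hw⟩ := this v
      exact ⟨w, hw⟩
    obtain ⟨v, hv⟩ := hsurj (ρ x)
    have h2 := horth v
    rw [hv, real_inner_self_eq_norm_sq, h1 x (hBU hx)] at h2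
    norm_num at h2
  -- Lipschitz bound
  obtain ⟨C0, hC0⟩ := hBc.exists_bound_of_continuousOn hDc
  set C : ℝ≥0 := ⟨max C0 0, le_max_right _ _⟩ with hC
  have hCn : ∀ x ∈ B, ‖D x‖ ≤ C := fun x hx => (hC0 x hx).trans (le_max_left _ _)
  set g : E → E := fun x => ρ x - x with hg
  have hgd : ∀ x ∈ B, HasFDerivAt g (D x) x := by
    intro x hx
    have := (hdiff x hx).sub (hasFDerivAt_id x)
    exact this
  have hgL : LipschitzOnWith C g B := by
    refine hBconv.lipschitzOnWith_of_nnnorm_hasFDerivWithin_le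
      (fun x hx => (hgd x hx).hasFDerivWithinAt) (fun x hx => ?_)
    exact_mod_cast hCn x hx
  have hg0 : ∀ x, ‖x‖ = 1 → g x = 0 := fun x hx => by simp [hg, hid x hx]
  -- positivity of determinants near the identity
  have hdetc : Continuous (fun A : E →L[ℝ] E => A.det) := ContinuousLinearMap.continuous_det
  have hnear : ∀ᶠ A : E →L[ℝ] E in 𝓝 1, 0 < A.det := by
    have : (0 : ℝ) < (1 : E →L[ℝ] E).det := by
      have : (1 : E →L[ℝ] E).det = 1 := by
        change LinearMap.det (((1 : E →L[ℝ] E) : E →ₗ[ℝ] E)) = 1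
        exact LinearMap.det_id
      rw [this]; norm_num
    exact hdetc.continuousAt.eventually (lt_mem_nhds this)
  obtain ⟨δ, hδ, hδd⟩ := Metric.eventually_nhds_iff.mp hnear
  set t0 : ℝ := min δ 1 / (2 * (C + 1)) with ht0
  have hCp : (0 : ℝ) < C + 1 := by positivity
  have ht0p : 0 < t0 := by
    have : 0 < min δ 1 := lt_min hδ one_pos
    positivity
  have ht0C : t0 * C < 1 ∧ t0 * C < δ := by
    have h3 : t0 * (C + 1) = min δ 1 / 2 := by rw [ht0]; field_simp
    have h4 : min δ 1 / 2 < 1 ∧ min δ 1 / 2 < δ := by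
      have := min_le_left δ 1
      have := min_le_right δ 1
      constructor <;> linarith
    have h5 : t0 * C ≤ t0 * (C + 1) := by
      apply mul_le_mul_of_nonneg_left _ ht0p.le; linarith
    constructor <;> linarith [h4.1, h4.2]
  have hvol : ∀ t, 0 ≤ t → t ≤ t0 → ∫ x in B, ((1 : E →L[ℝ] E) + t • D x).det ∂μ = (μ B).toReal := by
    intro t ht ht1
    have htC : t * C < 1 := lt_of_le_of_lt (by gcongr) ht0C.1
    obtain ⟨hinj, himg⟩ := small_perturb hgL hg0 ht htC
    have hcov := lintegral_abs_det_fderiv_eq_addHaar_image μ (s := B)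
      (f := fun x => x + t • g x) (f' := fun x => (1 : E →L[ℝ] E) + t • D x)
      measurableSet_closedBall
      (fun x hx => ((hasFDerivAt_id x).add ((hgd x hx).const_smul t)).hasFDerivWithinAt) hinj
    rw [himg] at hcov
    have hpos : ∀ x ∈ B, 0 ≤ ((1 : E →L[ℝ] E) + t • D x).det := by
      intro x hx
      apply le_of_lt
      apply hδd
      rw [dist_eq_norm, add_sub_cancel_left, norm_smul, Real.norm_of_nonneg ht]
      calc t * ‖D x‖ ≤ t0 * C := by
            gcongr
            exact hCn x hx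
        _ < δ := ht0C.2
    have hcont : ContinuousOn (fun x => ((1 : E →L[ℝ] E) + t • D x).det) B := by
      refine hdetc.comp_continuousOn ?_
      exact continuousOn_const.add (hDc.const_smul t)
    rw [integral_eq_lintegral_of_nonneg_ae]
    · rw [← hcov]
      congr 1
      refine setLIntegral_congr_fun measurableSet_closedBall fun x hx => ?_
      rw [abs_of_nonneg (hpos x hx)]
    · exact (ae_restrict_iff' measurableSet_closedBall).mpr (Filter.Eventually.of_forall hpos)
    · exact hcont.aestronglyMeasurable measurableSet_closedBall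
  obtain ⟨s, w, hs, hw, hA⟩ := det_interp (E := E) ht0p
  have hint : ∀ t : ℝ, IntegrableOn (fun x => ((1 : E →L[ℝ] E) + t • D x).det) B μ := by
    intro t
    refine ContinuousOn.integrableOn_compact hBc ?_
    refine hdetc.comp_continuousOn ?_
    exact continuousOn_const.add (hDc.const_smul t)
  have hzero : ∫ x in B, ((1 : E →L[ℝ] E) + D x).det ∂μ = 0 := by
    rw [setIntegral_congr_fun measurableSet_closedBall (fun x hx => hdet0 x hx)]
    simp
  have hone : ∫ x in B, ((1 : E →L[ℝ] E) + D x).det ∂μ = (μ B).toReal := by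
    have hA' : (fun x => ((1 : E →L[ℝ] E) + D x).det) =
        fun x => ∑ t ∈ s, w t * ((1 : E →L[ℝ] E) + t • D x).det := funext fun x => hA (D x)
    rw [hA', integral_finsetSum _ (fun t _ => (hint t).const_mul (w t))]
    rw [Finset.sum_congr rfl (fun t ht => integral_const_mul (w t) _)]
    rw [Finset.sum_congr rfl (fun t ht => by rw [hvol t (hs t ht).1 (hs t ht).2])]
    rw [← Finset.sum_mul, hw, one_mul]
  have hBpos : 0 < (μ B).toReal := by
    refine ENNReal.toReal_pos ?_ hBc.measure_lt_top.ne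
    exact (measure_closedBall_pos μ 0 one_pos).ne'
  rw [hzero] at hone
  linarith

/-- **Brouwer's fixed point theorem** for the closed unit ball. -/
theorem brouwer {f : E → E} (hf : ContinuousOn f (closedBall 0 1))
    (hm : MapsTo f (closedBall 0 1) (closedBall 0 1)) : ∃ x ∈ closedBall (0 : E) 1, f x = x := by
  by_contra hno
  push Not at hno
  set B : Set E := closedBall 0 1 with hB
  have hBc : IsCompact B := isCompact_closedBall 0 1
  have hBne : B.Nonempty := ⟨0, by simp [hB]⟩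
  -- distance to fixed points
  obtain ⟨x0, hx0, hmin⟩ := hBc.exists_isMinOn hBne (f := fun x => ‖x - f x‖)
    ((continuousOn_id.sub hf).norm)
  set δ : ℝ := ‖x0 - f x0‖ with hδ
  have hδp : 0 < δ := norm_pos_iff.mpr (sub_ne_zero.mpr (hno x0 hx0).symm)
  have hδle : ∀ x ∈ B, δ ≤ ‖x - f x‖ := fun x hx => hmin hx
  -- extension
  set pr : E → E := fun x => (max 1 ‖x‖)⁻¹ • x with hpr
  have hprc : Continuous pr := by
    refine Continuous.smul (Continuous.inv₀ (by fun_prop) fun x => ?_) continuous_id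
    have : (1 : ℝ) ≤ max 1 ‖x‖ := le_max_left _ _
    linarith
  have hprB : ∀ x, pr x ∈ B := by
    intro x
    have h1 : (0 : ℝ) < max 1 ‖x‖ := lt_of_lt_of_le one_pos (le_max_left _ _)
    simp only [hB, mem_closedBall, dist_zero_right, hpr, norm_smul, norm_inv,
      Real.norm_of_nonneg h1.le]
    rw [inv_mul_le_iff₀ h1, mul_one]
    exact le_max_right _ _
  have hprid : ∀ x ∈ B, pr x = x := by
    intro x hx
    simp only [hB, mem_closedBall, dist_zero_right] at hx
    simp [hpr, max_eq_left hx]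
  have hfc : Continuous (fun x => f (pr x)) := hf.comp_continuous hprc hprB
  obtain ⟨G, hGs, hGa, -⟩ := hfc.exists_contDiff_approx 1 (ε := fun _ => δ / 4)
    continuous_const (fun _ => by positivity)
  have hGB : ∀ x ∈ B, ‖G x - f x‖ < δ / 4 := by
    intro x hx
    have := hGa x
    rw [dist_eq_norm, hprid x hx] at this
    exact this
  have hfB : ∀ x ∈ B, ‖f x‖ ≤ 1 := fun x hx => by simpa [hB] using hm hx
  set ε : ℝ := δ / 4 with hε
  have hεp : 0 < ε := by positivity
  set p : E → E := fun x => (1 + ε)⁻¹ • G x with hp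
  have hpn : ∀ x ∈ B, ‖p x‖ ≤ 1 := by
    intro x hx
    simp only [hp, norm_smul, norm_inv, Real.norm_of_nonneg (by positivity : (0:ℝ) ≤ 1 + ε)]
    rw [inv_mul_le_iff₀ (by positivity), mul_one]
    calc ‖G x‖ = ‖f x + (G x - f x)‖ := by congr 1; abel
      _ ≤ ‖f x‖ + ‖G x - f x‖ := norm_add_le _ _
      _ ≤ 1 + ε := add_le_add (hfB x hx) (hGB x hx).le
  have hpf : ∀ x ∈ B, ‖p x - f x‖ ≤ 2 * ε := by
    intro x hx
    have h1 : p x - f x = (1 + ε)⁻¹ • ((G x - f x) - ε • f x) := by
      have : f x = (1 + ε)⁻¹ • ((1 + ε) • f x) := by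
        rw [smul_smul, inv_mul_cancel₀ (by positivity), one_smul]
      nth_rewrite 1 [this]
      simp only [hp]
      rw [← smul_sub, add_smul, one_smul]
      congr 1; abel
    rw [h1, norm_smul, norm_inv, Real.norm_of_nonneg (by positivity : (0:ℝ) ≤ 1 + ε),
      inv_mul_le_iff₀ (by positivity)]
    calc ‖(G x - f x) - ε • f x‖ ≤ ‖G x - f x‖ + ‖ε • f x‖ := norm_sub_le _ _
      _ ≤ ε + ε * 1 := by
          rw [norm_smul, Real.norm_of_nonneg hεp.le]
          gcongr
          · exact (hGB x hx).le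
          · exact hfB x hx
      _ ≤ (1 + ε) * (2 * ε) := by nlinarith
  have hpne : ∀ x ∈ B, x - p x ≠ 0 := by
    intro x hx h0
    have h1 := hδle x hx
    have h2 := hpf x hx
    have h3 : x = p x := sub_eq_zero.mp h0
    rw [← h3] at h2
    linarith
  have hps : ContDiff ℝ 1 p := hGs.const_smul _
  -- the retraction
  set u : E → E := fun x => x - p x with hu
  have hus : ContDiff ℝ 1 u := contDiff_id.sub hps
  set Dd : E → ℝ := fun x => (inner ℝ x (u x)) ^ 2 + ‖u x‖ ^ 2 * (1 - ‖x‖ ^ 2) with hDd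
  have hDs : ContDiff ℝ 1 Dd := by
    have a1 : ContDiff ℝ 1 (fun x : E => inner ℝ x (u x)) := contDiff_id.inner ℝ hus
    have a2 : ContDiff ℝ 1 (fun x : E => ‖u x‖ ^ 2) := hus.norm_sq ℝ
    have a3 : ContDiff ℝ 1 (fun x : E => ‖x‖ ^ 2) := contDiff_id.norm_sq ℝ
    exact (a1.pow 2).add (a2.mul (contDiff_const.sub a3))
  set τ : E → ℝ := fun x => (-(inner ℝ x (u x)) + √(Dd x)) / ‖u x‖ ^ 2 with hτ
  set ρ : E → E := fun x => x + τ x • u x with hρ
  set U : Set E := {x | u x ≠ 0} ∩ {x | 0 < Dd x} with hU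
  have hUo : IsOpen U := (isOpen_ne_fun hus.continuous continuous_const).inter
    (isOpen_lt continuous_const hDs.continuous)
  have hsph : ∀ x, ‖x‖ = 1 → 0 < inner ℝ x (u x) := by
    intro x hx
    have hxB : x ∈ B := by simp [hB, hx]
    have h1 : inner ℝ x (u x) = 1 - inner ℝ x (p x) := by
      simp only [hu, inner_sub_right, real_inner_self_eq_norm_sq, hx]; norm_num
    rw [h1, sub_pos]
    have h2 : inner ℝ x (p x) ≤ 1 := by
      calc inner ℝ x (p x) ≤ ‖x‖ * ‖p x‖ := real_inner_le_norm _ _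
        _ ≤ 1 * 1 := by rw [hx]; gcongr; exact hpn x hxB
        _ = 1 := one_mul 1
    refine lt_of_le_of_ne h2 fun h3 => ?_
    have h4 : ‖x - p x‖ ^ 2 ≤ 0 := by
      rw [norm_sub_sq_real, h3, hx]
      have := hpn x hxB
      have h5 : ‖p x‖ ^ 2 ≤ 1 := by
        rw [sq_le_one_iff₀ (norm_nonneg _)]; exact this
      linarith
    have h6 : ‖x - p x‖ = 0 := by
      have := sq_nonneg ‖x - p x‖
      exact pow_eq_zero_iff two_ne_zero |>.mp (le_antisymm h4 this)
    exact hpne x hxB (norm_eq_zero.mp h6)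
  have hBU : B ⊆ U := by
    intro x hx
    refine ⟨hpne x hx, ?_⟩
    change 0 < Dd x
    have hx1 : ‖x‖ ≤ 1 := by simpa [hB] using hx
    rcases eq_or_lt_of_le hx1 with h1 | h1
    · have := hsph x h1
      simp only [hDd, h1]
      nlinarith
    · have h2 : 0 < ‖u x‖ := norm_pos_iff.mpr (hpne x hx)
      have h3 : 0 < 1 - ‖x‖ ^ 2 := by nlinarith [norm_nonneg x]
      have : 0 < ‖u x‖ ^ 2 * (1 - ‖x‖ ^ 2) := by positivity
      simp only [hDd]
      nlinarith [sq_nonneg (inner ℝ x (u x))]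
  have hρs : ContDiffOn ℝ 1 ρ U := by
    intro x hx
    apply ContDiffAt.contDiffWithinAt
    have a1 : ContDiffAt ℝ 1 (fun x : E => inner ℝ x (u x)) x := (contDiff_id.inner ℝ hus).contDiffAt
    have a2 : ContDiffAt ℝ 1 (fun x : E => ‖u x‖ ^ 2) x := (hus.norm_sq ℝ).contDiffAt
    have a3 : ContDiffAt ℝ 1 (fun x : E => √(Dd x)) x := hDs.contDiffAt.sqrt hx.2.ne'
    have a4 : ContDiffAt ℝ 1 τ x := (a1.neg.add a3).div a2 (by
      have := norm_pos_iff.mpr hx.1
      positivity)
    exact contDiffAt_id.add (a4.smul hus.contDiffAt)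
  refine no_retraction hUo hBU hρs ?_ ?_
  · intro x hx
    have hux : 0 < ‖u x‖ := norm_pos_iff.mpr hx.1
    have hs : √(Dd x) ^ 2 = Dd x := Real.sq_sqrt hx.2.le
    have h2 : τ x * ‖u x‖ ^ 2 = -(inner ℝ x (u x)) + √(Dd x) := by
      simp only [hτ]; field_simp
    have h1 : ‖ρ x‖ ^ 2 = 1 := by
      simp only [hρ]
      rw [norm_add_sq_real, inner_smul_right, norm_smul, mul_pow, Real.norm_eq_abs, sq_abs]
      have h3 : τ x * (2 * inner ℝ x (u x) + τ x * ‖u x‖ ^ 2) = 1 - ‖x‖ ^ 2 := by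
        rw [h2]
        have h4 : τ x * (2 * inner ℝ x (u x) + (-(inner ℝ x (u x)) + √(Dd x))) * ‖u x‖ ^ 2
            = (1 - ‖x‖ ^ 2) * ‖u x‖ ^ 2 := by
          calc τ x * (2 * inner ℝ x (u x) + (-(inner ℝ x (u x)) + √(Dd x))) * ‖u x‖ ^ 2
              = (τ x * ‖u x‖ ^ 2) * (inner ℝ x (u x) + √(Dd x)) := by ring
            _ = √(Dd x) ^ 2 - (inner ℝ x (u x)) ^ 2 := by rw [h2]; ring
            _ = (1 - ‖x‖ ^ 2) * ‖u x‖ ^ 2 := by rw [hs]; simp only [hDd]; ring
        exact mul_right_cancel₀ (by positivity) h4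
      nlinarith
    exact (pow_eq_one_iff_of_nonneg (norm_nonneg _) two_ne_zero).mp h1
  · intro x hx
    have h1 := hsph x hx
    have h2 : Dd x = (inner ℝ x (u x)) ^ 2 := by simp only [hDd, hx]; ring
    have h3 : τ x = 0 := by
      simp only [hτ]
      rw [h2, Real.sqrt_sq h1.le]; simp
    simp [hρ, h3]

/-- A continuous nonvanishing field on the closed unit ball is radial somewhere on the sphere. -/
theorem exists_radial {F : E → E} (hF : ContinuousOn F (closedBall 0 1))
    (hne : ∀ x, ‖x‖ ≤ 1 → F x ≠ 0) : ∃ x : E, ‖x‖ = 1 ∧ ∃ r : ℝ, F x = r • x := by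
  obtain ⟨x, hx, hfx⟩ := brouwer (f := fun x => -((‖F x‖)⁻¹ • F x))
    ((ContinuousOn.smul (hF.norm.inv₀ fun x hx => norm_ne_zero_iff.mpr
      (hne x (by simpa using hx))) hF).neg) (by
      intro x hx
      have h1 : ‖F x‖ ≠ 0 := norm_ne_zero_iff.mpr (hne x (by simpa using hx))
      simp only [mem_closedBall, dist_zero_right, norm_neg, norm_smul, norm_inv, norm_norm]
      rw [inv_mul_cancel₀ h1])
  have h1 : ‖F x‖ ≠ 0 := norm_ne_zero_iff.mpr (hne x (by simpa using hx))
  have h2 : ‖x‖ = 1 := by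
    rw [← hfx, norm_neg, norm_smul, norm_inv, norm_norm, inv_mul_cancel₀ h1]
  refine ⟨x, h2, -‖F x‖, ?_⟩
  have h3 : (‖F x‖) • (-((‖F x‖)⁻¹ • F x)) = ‖F x‖ • x := by rw [hfx]
  rw [smul_neg, smul_smul, mul_inv_cancel₀ h1, one_smul] at h3
  rw [neg_smul, ← h3, neg_neg]

end Retraction

end Pool.Agent.Lib_helper47.R
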