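import Mathlib

/-!
# Codes of separable Banach spaces: pseudonorms on the rational sequences

The definitions used in the statement.
-/

namespace Pool.Agent.Lib_helper47.R

open Filter Set
open scoped Topology

/-- The `ℚ`-vector space `V` of finitely supported rational sequences. -/
abbrev V : Type := ℕ →₀ ℚ

/-- The real vector space `c₀₀` of finitely supported real sequences. -/
abbrev C00 : Type := ℕ →₀ ℝ

/-- The inclusion of `V` in `c₀₀`. -/
noncomputable def incl (v : V) : C00 := v.mapRange (fun q : ℚ => (q : ℝ)) Rat.cast_zero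

/-- Pseudonorms (seminorms) on `V`. -/
def IsPseudonorm (μ : V → ℝ) : Prop :=
  (∀ v w, μ (v + w) ≤ μ v + μ w) ∧ ∀ (q : ℚ) (v : V), μ (q • v) = |(q : ℝ)| * μ v

/-- The space `𝒫` of all pseudonorms on `V`, with the topology of pointwise convergence on `V`
(the subspace topology of the product topology of `ℝ ^ V`). -/
def P : Type := {μ : V → ℝ // IsPseudonorm μ}

noncomputable instance : TopologicalSpace P :=
  (inferInstance : TopologicalSpace {μ : V → ℝ // IsPseudonorm μ})

@[simp] lemma incl_apply (v : V) (i : ℕ) : incl v i = (v i : ℝ) := rfl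

lemma incl_add (v w : V) : incl (v + w) = incl v + incl w := by
  ext i; simp

lemma incl_sub (v w : V) : incl (v - w) = incl v - incl w := by
  ext i; simp

lemma incl_smul (q : ℚ) (v : V) : incl (q • v) = (q : ℝ) • incl v := by
  ext i; simp

lemma incl_zero : incl 0 = 0 := by ext i; simp

lemma incl_single (i : ℕ) (q : ℚ) : incl (Finsupp.single i q) = Finsupp.single i (q : ℝ) := by
  simp [incl]

/-- rational approximation with respect to a seminorm. -/
lemma exists_incl_near (D : Seminorm ℝ C00) (a : C00) {ε : ℝ} (hε : 0 < ε) :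
    ∃ v : V, D (a - incl v) < ε := by
  induction a using Finsupp.induction_linear generalizing ε with
  | zero => exact ⟨0, by rw [incl_zero, sub_zero, map_zero]; exact hε⟩
  | add a b ha hb =>
    obtain ⟨v, hv⟩ := ha (half_pos hε)
    obtain ⟨w, hw⟩ := hb (half_pos hε)
    refine ⟨v + w, ?_⟩
    have : a + b - incl (v + w) = (a - incl v) + (b - incl w) := by rw [incl_add]; abel
    rw [this]
    linarith [map_add_le_add D (a - incl v) (b - incl w)]
  | single i r =>
    have hD : 0 ≤ D (Finsupp.single i 1) := apply_nonneg D _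
    obtain ⟨q, hq1, hq2⟩ := exists_rat_btwn
      (lt_add_of_pos_right r (show 0 < ε / (D (Finsupp.single i 1) + 1) by positivity))
    refine ⟨Finsupp.single i q, ?_⟩
    have : (Finsupp.single i r : C00) - incl (Finsupp.single i q) =
        (r - q) • Finsupp.single i (1 : ℝ) := by
      rw [incl_single, ← Finsupp.single_sub, Finsupp.smul_single, smul_eq_mul, mul_one]
    rw [this, map_smul_eq_mul, Real.norm_eq_abs]
    have h1 : |r - q| < ε / (D (Finsupp.single i 1) + 1) := by
      rw [abs_lt]; constructor <;> linarith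
    calc |r - q| * D (Finsupp.single i 1) ≤ |r - q| * (D (Finsupp.single i 1) + 1) := by
          gcongr; linarith
      _ < ε / (D (Finsupp.single i 1) + 1) * (D (Finsupp.single i 1) + 1) := by
          gcongr
      _ = ε := by field_simp

/-- A seminorm is bounded by the weighted `ℓ₁` norm. -/
noncomputable def D1 (c : ℕ → ℝ) (hc : ∀ i, 0 ≤ c i) : Seminorm ℝ C00 :=
  Seminorm.ofSMulLE (fun a => a.sum fun i r => |r| * c i) (by simp)
    (by
      intro a b
      classical
      rw [Finsupp.sum_of_support_subset (a + b) (s := a.support ∪ b.support)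
        Finsupp.support_add _ (by simp),
        Finsupp.sum_of_support_subset a (s := a.support ∪ b.support)
        Finset.subset_union_left _ (by simp),
        Finsupp.sum_of_support_subset b (s := a.support ∪ b.support)
        Finset.subset_union_right _ (by simp), ← Finset.sum_add_distrib]
      refine Finset.sum_le_sum fun i _ => ?_
      rw [← add_mul]
      exact mul_le_mul_of_nonneg_right (abs_add_le _ _) (hc i))
    (by
      intro r a
      rw [Finsupp.sum_of_support_subset (r • a) (s := a.support) Finsupp.support_smul _ (by simp),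
        Finsupp.sum, Finset.mul_sum]
      refine Finset.sum_le_sum fun i _ => ?_
      rw [Finsupp.smul_apply, smul_eq_mul, abs_mul, Real.norm_eq_abs, mul_assoc])

lemma D1_apply (c : ℕ → ℝ) (hc : ∀ i, 0 ≤ c i) (a : C00) :
    D1 c hc a = a.sum fun i r => |r| * c i := rfl

lemma seminorm_sum_le (p : Seminorm ℝ C00) (s : Finset ℕ) (g : ℕ → C00) :
    p (∑ i ∈ s, g i) ≤ ∑ i ∈ s, p (g i) := by
  classical
  induction s using Finset.induction_on with
  | empty => simp
  | insert i s hi ih =>
    rw [Finset.sum_insert hi, Finset.sum_insert hi]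
    exact (map_add_le_add p _ _).trans (by linarith)

lemma seminorm_le_D1 (p : Seminorm ℝ C00) (c : ℕ → ℝ) (hc : ∀ i, 0 ≤ c i)
    (h : ∀ i, p (Finsupp.single i 1) ≤ c i) (a : C00) : p a ≤ D1 c hc a := by
  rw [D1_apply]
  conv_lhs => rw [← Finsupp.sum_single a]
  rw [Finsupp.sum, Finsupp.sum]
  refine (seminorm_sum_le p _ _).trans (Finset.sum_le_sum fun i _ => ?_)
  have : (Finsupp.single i (a i) : C00) = a i • Finsupp.single i 1 := by
    rw [Finsupp.smul_single, smul_eq_mul, mul_one]
  rw [this, map_smul_eq_mul, Real.norm_eq_abs]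
  exact mul_le_mul_of_nonneg_left (h i) (abs_nonneg _)

namespace P

variable (μ : P)

lemma zero : μ.1 0 = 0 := by
  have := μ.2.2 0 0
  simpa using this

lemma nonneg (v : V) : 0 ≤ μ.1 v := by
  have h1 := μ.2.1 v (-v)
  have h2 := μ.2.2 (-1) v
  rw [add_neg_cancel, zero] at h1
  rw [neg_one_smul] at h2
  rw [h2] at h1
  norm_num at h1
  exact h1

lemma sum_le (s : Finset ℕ) (g : ℕ → V) : μ.1 (∑ i ∈ s, g i) ≤ ∑ i ∈ s, μ.1 (g i) := by
  classical
  induction s using Finset.induction_on with
  | empty => simp [μ.zero]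
  | insert i s hi ih =>
    rw [Finset.sum_insert hi, Finset.sum_insert hi]
    exact (μ.2.1 _ _).trans (by linarith)

/-- The weights `μ(e_i)`. -/
noncomputable def wt (i : ℕ) : ℝ := μ.1 (Finsupp.single i 1)

lemma wt_nonneg (i : ℕ) : 0 ≤ μ.wt i := μ.nonneg _

lemma le_D1 (v : V) : μ.1 v ≤ D1 μ.wt μ.wt_nonneg (incl v) := by
  have hsub : (incl v).support ⊆ v.support := by
    intro i hi
    rw [Finsupp.mem_support_iff] at hi ⊢
    intro h
    apply hi
    rw [incl_apply, h]; simp
  rw [D1_apply, Finsupp.sum_of_support_subset (incl v) hsub _ (by simp)]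
  conv_lhs => rw [← Finsupp.sum_single v]
  rw [Finsupp.sum]
  refine (μ.sum_le _ _).trans (Finset.sum_le_sum fun i _ => ?_)
  have : (Finsupp.single i (v i) : V) = v i • Finsupp.single i 1 := by
    rw [Finsupp.smul_single, smul_eq_mul, mul_one]
  rw [this, μ.2.2]
  rfl

/-- the extension of a pseudonorm to `c₀₀`. -/
noncomputable def extFun (a : C00) : ℝ :=
  ⨅ v : V, (μ.1 v + D1 μ.wt μ.wt_nonneg (a - incl v))

lemma bdd (a : C00) : BddBelow (range fun v : V => μ.1 v + D1 μ.wt μ.wt_nonneg (a - incl v)) := by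
  refine ⟨0, ?_⟩
  rintro _ ⟨v, rfl⟩
  exact add_nonneg (μ.nonneg v) (apply_nonneg _ _)

lemma extFun_le (a : C00) (v : V) :
    μ.extFun a ≤ μ.1 v + D1 μ.wt μ.wt_nonneg (a - incl v) := ciInf_le (μ.bdd a) v

lemma extFun_nonneg (a : C00) : 0 ≤ μ.extFun a :=
  le_ciInf fun v => add_nonneg (μ.nonneg v) (apply_nonneg _ _)

lemma extFun_incl (v : V) : μ.extFun (incl v) = μ.1 v := by
  apply le_antisymm
  · have := μ.extFun_le (incl v) v
    rw [sub_self, map_zero, add_zero] at this
    exact this
  · refine le_ciInf fun w => ?_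
    have h1 := μ.2.1 w (v - w)
    rw [add_sub_cancel] at h1
    have h2 := μ.le_D1 (v - w)
    rw [incl_sub] at h2
    linarith

lemma extFun_add (a b : C00) : μ.extFun (a + b) ≤ μ.extFun a + μ.extFun b := by
  unfold extFun
  refine le_ciInf_add_ciInf fun v w => ?_
  have h1 := μ.extFun_le (a + b) (v + w)
  have h2 := μ.2.1 v w
  have h3 : a + b - incl (v + w) = (a - incl v) + (b - incl w) := by rw [incl_add]; abel
  rw [h3] at h1
  have h4 := map_add_le_add (D1 μ.wt μ.wt_nonneg) (a - incl v) (b - incl w)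
  unfold extFun at h1
  linarith

lemma extFun_lip (a b : C00) : μ.extFun a ≤ μ.extFun b + D1 μ.wt μ.wt_nonneg (a - b) := by
  rw [← sub_le_iff_le_add]
  refine le_ciInf fun v => ?_
  have h1 := μ.extFun_le a v
  have h3 : a - incl v = (b - incl v) + (a - b) := by abel
  have h4 := map_add_le_add (D1 μ.wt μ.wt_nonneg) (b - incl v) (a - b)
  rw [← h3] at h4
  linarith

lemma extFun_ratsmul (q : ℚ) (a : C00) : μ.extFun ((q : ℝ) • a) ≤ |(q : ℝ)| * μ.extFun a := by
  conv_rhs => unfold extFun
  rw [Real.mul_iInf_of_nonneg (abs_nonneg _)]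
  refine le_ciInf fun v => ?_
  refine (μ.extFun_le _ (q • v)).trans ?_
  rw [μ.2.2, incl_smul, ← smul_sub, map_smul_eq_mul, Real.norm_eq_abs]
  exact (mul_add _ _ _).symm.le

lemma extFun_smul (r : ℝ) (a : C00) : μ.extFun (r • a) ≤ ‖r‖ * μ.extFun a := by
  refine le_of_forall_pos_le_add fun ε hε => ?_
  have hK : 0 ≤ μ.extFun a + D1 μ.wt μ.wt_nonneg a := add_nonneg (μ.extFun_nonneg a) (apply_nonneg _ _)
  obtain ⟨q, hq1, hq2⟩ := exists_rat_btwn
      (lt_add_of_pos_right r (show 0 < ε / (μ.extFun a + D1 μ.wt μ.wt_nonneg a + 1) by positivity))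
  have hd : |r - q| ≤ ε / (μ.extFun a + D1 μ.wt μ.wt_nonneg a + 1) := by
    rw [abs_le]; constructor <;> linarith
  have h1 := μ.extFun_lip (r • a) ((q : ℝ) • a)
  rw [← sub_smul, map_smul_eq_mul, Real.norm_eq_abs] at h1
  have h2 := μ.extFun_ratsmul q a
  have h3 : |(q : ℝ)| ≤ |r| + |r - q| := by
    have := abs_sub_abs_le_abs_sub (q : ℝ) r
    rw [abs_sub_comm] at this
    linarith
  have h4 : |(q : ℝ)| * μ.extFun a ≤ (|r| + |r - q|) * μ.extFun a :=
    mul_le_mul_of_nonneg_right h3 (μ.extFun_nonneg a)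
  have h5 : |r - q| * (μ.extFun a + D1 μ.wt μ.wt_nonneg a) ≤ ε := by
    calc _ ≤ ε / (μ.extFun a + D1 μ.wt μ.wt_nonneg a + 1) *
          (μ.extFun a + D1 μ.wt μ.wt_nonneg a + 1) :=
            mul_le_mul hd (by linarith) hK (by positivity)
      _ = ε := by field_simp
  rw [Real.norm_eq_abs]
  nlinarith

end P

/-- Every pseudonorm on `V` has a unique extension to a seminorm on `c₀₀`. -/
theorem existsUnique_ext (μ : P) : ∃! p : Seminorm ℝ C00, ∀ v : V, p (incl v) = μ.1 v := by
  refine ⟨Seminorm.ofSMulLE μ.extFun (by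
    have := μ.extFun_incl 0
    rw [incl_zero, μ.zero] at this
    exact this) μ.extFun_add μ.extFun_smul, μ.extFun_incl, ?_⟩
  intro p hp
  have key : ∀ (p p' : Seminorm ℝ C00), (∀ v : V, p (incl v) = p' (incl v)) → ∀ a, p a ≤ p' a := by
    intro p p' h a
    refine le_of_forall_pos_le_add fun ε hε => ?_
    obtain ⟨v, hv⟩ := exists_incl_near (p + p') a hε
    rw [add_apply] at hv
    have h1 : p a ≤ p (incl v) + p (a - incl v) := by
      have := map_add_le_add p (incl v) (a - incl v)
      rwa [add_sub_cancel] at this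
    have h2 : p' (incl v) ≤ p' a + p' (a - incl v) := by
      have := map_sub_le_add p' a (a - incl v)
      rwa [sub_sub_cancel] at this
    rw [h v] at h1
    linarith
  ext a
  have hq : ∀ v : V, p (incl v) = (Seminorm.ofSMulLE μ.extFun (by
    have := μ.extFun_incl 0
    rw [incl_zero, μ.zero] at this
    exact this) μ.extFun_add μ.extFun_smul : Seminorm ℝ C00) (incl v) := fun v => by
      rw [hp v]; exact (μ.extFun_incl v).symm
  exact le_antisymm (key _ _ hq a) (key _ _ (fun v => (hq v).symm) a)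

/-- The extension of a pseudonorm on `V` to a seminorm on `c₀₀`. -/
noncomputable def ext (μ : P) : Seminorm ℝ C00 := (existsUnique_ext μ).choose

lemma ext_incl (μ : P) (v : V) : ext μ (incl v) = μ.1 v := (existsUnique_ext μ).choose_spec.1 v

lemma ext_unique (μ : P) (p : Seminorm ℝ C00) (h : ∀ v : V, p (incl v) = μ.1 v) : p = ext μ :=
  (existsUnique_ext μ).choose_spec.2 p h

/-- The space `c₀₀` with the seminorm `p`. -/
def Pre (_p : Seminorm ℝ C00) : Type := C00

noncomputable instance (p : Seminorm ℝ C00) : AddCommGroup (Pre p) :=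
  (inferInstance : AddCommGroup C00)

noncomputable instance (p : Seminorm ℝ C00) : Module ℝ (Pre p) := (inferInstance : Module ℝ C00)

noncomputable instance (p : Seminorm ℝ C00) : SeminormedAddCommGroup (Pre p) :=
  AddGroupSeminorm.toSeminormedAddCommGroup (E := Pre p) p.toAddGroupSeminorm

noncomputable instance (p : Seminorm ℝ C00) : NormedSpace ℝ (Pre p) where
  norm_smul_le r v := (map_smul_eq_mul p r v).le

lemma Pre.norm_eq (p : Seminorm ℝ C00) (a : C00) : ‖(show Pre p from a)‖ = p a := rfl

/-- The Banach space `X_μ`: the completion of `c₀₀ / N_μ` with respect to `μ`. (The completion of a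
seminormed space is Hausdorff, so the vectors of seminorm `0` are identified with `0`.) -/
def X (μ : P) : Type := UniformSpace.Completion (Pre (ext μ))

noncomputable instance (μ : P) : NormedAddCommGroup (X μ) :=
  (inferInstance : NormedAddCommGroup (UniformSpace.Completion (Pre (ext μ))))

noncomputable instance (μ : P) : NormedSpace ℝ (X μ) :=
  (inferInstance : NormedSpace ℝ (UniformSpace.Completion (Pre (ext μ))))

instance (μ : P) : CompleteSpace (X μ) :=
  (inferInstance : CompleteSpace (UniformSpace.Completion (Pre (ext μ))))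

/-- `X_μ ≡ X_ν`: there is a surjective linear isometry. -/
def Isometric (μ ν : P) : Prop := Nonempty (X μ ≃ₗᵢ[ℝ] X ν)

/-- `X_μ` is infinite-dimensional. -/
def InfDim (μ : P) : Prop := ¬ FiniteDimensional ℝ (X μ)

/-- The extension of `μ` to `c₀₀` is a norm. -/
def ExtIsNorm (μ : P) : Prop := ∀ a : C00, ext μ a = 0 → a = 0

/-- `𝒫_∞`: the pseudonorms `μ` for which `X_μ` is infinite-dimensional. -/
def PInf : Type := {μ : P // InfDim μ}

noncomputable instance : TopologicalSpace PInf :=
  (inferInstance : TopologicalSpace {μ : P // InfDim μ})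

/-- `ℬ`: the elements of `𝒫_∞` whose extension to `c₀₀` is a norm. -/
def BInf : Type := {μ : P // InfDim μ ∧ ExtIsNorm μ}

noncomputable instance : TopologicalSpace BInf :=
  (inferInstance : TopologicalSpace {μ : P // InfDim μ ∧ ExtIsNorm μ})

/-- The code in `𝒫` of an element of `𝒫_∞`. -/
def PInf.code (μ : PInf) : P := μ.1

/-- The code in `𝒫` of an element of `ℬ`. -/
def BInf.code (μ : BInf) : P := μ.1

/-- For every `a ∈ c₀₀` the map `μ ↦ μ(a)` is continuous on `𝒫`. -/
lemma continuous_ext_apply (a : C00) : Continuous fun μ : P => ext μ a := by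
  have hV : ∀ v : V, Continuous fun μ : P => ext μ (incl v) := by
    intro v
    simp_rw [ext_incl]
    exact (continuous_apply v).comp continuous_subtype_val
  have hwt : ∀ i, Continuous fun μ : P => ext μ (Finsupp.single i (1 : ℝ)) := by
    intro i
    have := hV (Finsupp.single i 1)
    simpa [incl_single] using this
  rw [continuous_iff_continuousAt]
  intro μ0
  rw [Metric.continuousAt_iff']
  intro ε hε
  set c : ℕ → ℝ := fun i => ext μ0 (Finsupp.single i (1 : ℝ)) + 1 with hc
  have hc0 : ∀ i, 0 ≤ c i := fun i => add_nonneg (apply_nonneg _ _) zero_le_one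
  obtain ⟨v, hv⟩ := exists_incl_near (D1 c hc0) a (show 0 < ε / 3 by positivity)
  have h1 : ∀ᶠ μ in 𝓝 μ0, ∀ i ∈ (a - incl v).support,
      ext μ (Finsupp.single i (1 : ℝ)) ≤ c i := by
    rw [Filter.eventually_all_finset]
    intro i _
    exact ((hwt i).continuousAt.eventually (gt_mem_nhds (lt_add_one _))).mono fun μ h => h.le
  have h2 : ∀ᶠ μ in 𝓝 μ0, |ext μ (incl v) - ext μ0 (incl v)| < ε / 3 := by
    have := Metric.tendsto_nhds.mp ((hV v).tendsto μ0) (ε / 3) (by positivity)
    exact this
  have hbound : ∀ μ : P, (∀ i ∈ (a - incl v).support, ext μ (Finsupp.single i (1 : ℝ)) ≤ c i) →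
      ext μ (a - incl v) < ε / 3 := by
    intro μ hμ
    refine lt_of_le_of_lt ?_ hv
    rw [D1_apply]
    conv_lhs => rw [← Finsupp.sum_single (a - incl v)]
    rw [Finsupp.sum, Finsupp.sum]
    refine (seminorm_sum_le (ext μ) _ _).trans (Finset.sum_le_sum fun i hi => ?_)
    have : (Finsupp.single i ((a - incl v) i) : C00) = (a - incl v) i • Finsupp.single i 1 := by
      rw [Finsupp.smul_single, smul_eq_mul, mul_one]
    rw [this, map_smul_eq_mul, Real.norm_eq_abs]
    exact mul_le_mul_of_nonneg_left (hμ i hi) (abs_nonneg _)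
  filter_upwards [h1, h2] with μ hμ1 hμ2
  have h3 := hbound μ hμ1
  have h4 := hbound μ0 (fun i _ => by simp [hc])
  have h5 : |ext μ a - ext μ (incl v)| ≤ ext μ (a - incl v) := abs_sub_map_le_sub _ _ _
  have h6 : |ext μ0 a - ext μ0 (incl v)| ≤ ext μ0 (a - incl v) := abs_sub_map_le_sub _ _ _
  rw [Real.dist_eq]
  rw [abs_lt] at hμ2 ⊢
  rw [abs_le] at h5 h6
  constructor <;> linarith [hμ2.1, hμ2.2, h5.1, h5.2, h6.1, h6.2]

end Pool.Agent.Lib_helper47.R
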