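import Mathlib

/-!
# Jumps of derivatives of sums of absolute values of functionals
-/

namespace Pool.Agent.Lib_helper47.R

open Filter Set
open scoped Topology

variable {H : Type*} [NormedAddCommGroup H] [InnerProductSpace ℝ H]

/-- In a complete subspace some vector is non-orthogonal to each of countably many given nonzero
vectors of the subspace. -/
lemma exists_all_ne [CompleteSpace H] (S : Submodule ℝ H) (hS : IsClosed (S : Set H)) {ι : Type*}
    [Countable ι] (z : ι → H) (hz : ∀ i, z i ∈ S) (hz0 : ∀ i, z i ≠ 0) :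
    ∃ h ∈ S, ∀ i, inner ℝ h (z i) ≠ 0 := by
  have : CompleteSpace S := hS.completeSpace_coe
  let K : ι → Submodule ℝ S := fun i =>
    LinearMap.ker (((innerSL ℝ (z i)).comp S.subtypeL : S →L[ℝ] ℝ) : S →ₗ[ℝ] ℝ)
  have hmem : ∀ i (h : S), h ∈ K i ↔ inner ℝ (z i) (h : H) = 0 := by
    intro i h
    simp [K]
  have hopen : ∀ i, IsOpen ((K i : Set S)ᶜ) := by
    intro i
    rw [isOpen_compl_iff]
    have : (K i : Set S) = {h : S | inner ℝ (z i) (h : H) = 0} := by
      ext h; exact hmem i h
    rw [this]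
    exact isClosed_eq (by fun_prop) continuous_const
  have hdense : ∀ i, Dense ((K i : Set S)ᶜ) := by
    intro i
    rw [← interior_eq_empty_iff_dense_compl]
    by_contra hne
    have h1 := (K i).eq_top_of_nonempty_interior' (Set.nonempty_iff_ne_empty.mpr hne)
    have h2 : (⟨z i, hz i⟩ : S) ∈ K i := by rw [h1]; exact Submodule.mem_top
    rw [hmem] at h2
    exact hz0 i (inner_self_eq_zero.mp h2)
  have := dense_iInter_of_isOpen hopen hdense
  obtain ⟨h, hh⟩ := this.nonempty
  refine ⟨h, h.2, fun i => ?_⟩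
  have h3 := Set.mem_iInter.mp hh i
  intro h4
  apply h3
  change h ∈ K i
  rw [hmem, real_inner_comm]
  exact h4

lemma abs_jump (a b : ℝ) : Tendsto (fun t : ℝ => (|a + t * b| + |a - t * b| - 2 * |a|) / t)
    (𝓝[>] 0) (𝓝 (if a = 0 then 2 * |b| else 0)) := by
  by_cases ha : a = 0
  · simp only [ha, if_true]
    refine tendsto_const_nhds.congr' ?_
    filter_upwards [self_mem_nhdsWithin] with t ht
    have ht' : (0 : ℝ) < t := ht
    simp only [zero_add, zero_sub, abs_neg, abs_zero, mul_zero, sub_zero, abs_mul,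
      abs_of_pos ht']
    field_simp
    ring
  · simp only [ha, if_false]
    refine tendsto_const_nhds.congr' ?_
    have h1 : Tendsto (fun t : ℝ => |t * b|) (𝓝[>] 0) (𝓝 0) := by
      have : Tendsto (fun t : ℝ => |t * b|) (𝓝 0) (𝓝 |0 * b|) :=
        (Continuous.tendsto (by fun_prop) 0)
      rw [zero_mul, abs_zero] at this
      exact this.mono_left nhdsWithin_le_nhds
    have h2 : (0 : ℝ) < |a| := abs_pos.mpr ha
    filter_upwards [h1.eventually (gt_mem_nhds h2)] with t ht
    have h3 : |a + t * b| + |a - t * b| - 2 * |a| = 0 := by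
      rcases lt_or_gt_of_ne ha with h | h
      · rw [abs_of_neg h] at ht ⊢
        have := abs_lt.mp ht
        rw [abs_of_neg (by linarith [this.2] : a + t * b < 0),
          abs_of_neg (by linarith [this.1] : a - t * b < 0)]
        ring
      · rw [abs_of_pos h] at ht ⊢
        have := abs_lt.mp ht
        rw [abs_of_pos (by linarith [this.1] : 0 < a + t * b),
          abs_of_pos (by linarith [this.2] : 0 < a - t * b)]
        ring
    rw [h3, zero_div]

lemma abs_jump_bound (a b : ℝ) {t : ℝ} (ht : 0 < t) :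
    |(|a + t * b| + |a - t * b| - 2 * |a|) / t| ≤ 2 * |b| := by
  rw [abs_div, abs_of_pos ht, div_le_iff₀ ht]
  have h1 : |(|a + t * b| - |a|)| ≤ |t * b| := by
    have := abs_abs_sub_abs_le (a + t * b) a
    simpa using this
  have h2 : |(|a - t * b| - |a|)| ≤ |t * b| := by
    have := abs_abs_sub_abs_le (a - t * b) a
    simpa using this
  have h3 : |a + t * b| + |a - t * b| - 2 * |a| = (|a + t * b| - |a|) + (|a - t * b| - |a|) := by
    ring
  rw [h3]
  have h4 : |t * b| = t * |b| := by rw [abs_mul, abs_of_pos ht]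
  calc _ ≤ |(|a + t * b| - |a|)| + |(|a - t * b| - |a|)| := abs_add_le _ _
    _ ≤ |t * b| + |t * b| := add_le_add h1 h2
    _ = 2 * |b| * t := by rw [h4]; ring

/-- the sum `∑ c_k |⟨h, z_k⟩|` -/
noncomputable def T (c : ℕ → ℝ) (z : ℕ → H) (h : H) : ℝ := ∑' k, c k * |inner ℝ h (z k)|

lemma T_summable {c : ℕ → ℝ} (hc : ∀ k, 0 < c k) {z : ℕ → H}
    (hs : Summable fun k => c k * ‖z k‖) (h : H) :
    Summable fun k => c k * |inner ℝ h (z k)| := by
  refine Summable.of_nonneg_of_le (fun k => by have := (hc k).le; positivity) (fun k => ?_)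
    (hs.mul_left ‖h‖)
  calc c k * |inner ℝ h (z k)| ≤ c k * (‖h‖ * ‖z k‖) := by
        gcongr
        · exact (hc k).le
        · exact abs_real_inner_le_norm h (z k)
    _ = ‖h‖ * (c k * ‖z k‖) := by ring

lemma T_jump {c : ℕ → ℝ} (hc : ∀ k, 0 < c k) {z : ℕ → H}
    (hs : Summable fun k => c k * ‖z k‖) (h u : H) :
    Tendsto (fun t : ℝ => (T c z (h + t • u) + T c z (h - t • u) - 2 * T c z h) / t)
      (𝓝[>] 0) (𝓝 (∑' k, c k * (if inner ℝ h (z k) = 0 then 2 * |inner ℝ u (z k)| else 0))) := by
  have h1 : ∀ t : ℝ, (T c z (h + t • u) + T c z (h - t • u) - 2 * T c z h) / t =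
      ∑' k, c k * ((|inner ℝ h (z k) + t * inner ℝ u (z k)| +
        |inner ℝ h (z k) - t * inner ℝ u (z k)| - 2 * |inner ℝ h (z k)|) / t) := by
    intro t
    unfold T
    rw [← (T_summable hc hs _).tsum_add (T_summable hc hs _), ← tsum_mul_left,
      ← ((T_summable hc hs _).add (T_summable hc hs _)).tsum_sub ((T_summable hc hs _).mul_left 2),
      ← tsum_div_const]
    refine tsum_congr fun k => ?_
    rw [inner_add_left, inner_sub_left, inner_smul_left]
    simp only [conj_trivial]
    ring
  simp_rw [h1]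
  refine tendsto_tsum_of_dominated_convergence
    (bound := fun k => 2 * (c k * |inner ℝ u (z k)|)) ((T_summable hc hs u).mul_left 2) ?_ ?_
  · intro k
    exact (abs_jump _ _).const_mul _
  · filter_upwards [self_mem_nhdsWithin] with t ht k
    rw [norm_mul, Real.norm_of_nonneg (hc k).le, Real.norm_eq_abs]
    calc c k * _ ≤ c k * (2 * |inner ℝ u (z k)|) := by
          gcongr
          · exact (hc k).le
          · exact abs_jump_bound _ _ ht
      _ = _ := by ring

lemma para_bound {A B p r t : ℝ} (hp : 0 < p) (hpar : A ^ 2 + B ^ 2 = 2 * p ^ 2 + 2 * (t ^ 2 * r ^ 2)) :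
    A + B - 2 * p ≤ t ^ 2 * (r ^ 2 / p) := by
  have h1 : (A + B) ^ 2 ≤ (2 * p + t ^ 2 * (r ^ 2 / p)) ^ 2 := by
    have h2 : (2 * p + t ^ 2 * (r ^ 2 / p)) ^ 2 =
        4 * p ^ 2 + 4 * (t ^ 2 * r ^ 2) + (t ^ 2 * (r ^ 2 / p)) ^ 2 := by
      field_simp
      ring
    rw [h2]
    nlinarith [sq_nonneg (A - B), sq_nonneg (t ^ 2 * (r ^ 2 / p))]
  have h3 : 0 ≤ 2 * p + t ^ 2 * (r ^ 2 / p) := by positivity
  have h4 := abs_le_of_sq_le_sq' h1 h3
  linarith [h4.2]

/-- A function satisfying the parallelogram law along `h ± t u` has no jump at `h`. -/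
lemma para_jump {q : H → ℝ} {h u : H} (hp : 0 < q h)
    (hpar : ∀ t : ℝ, q (h + t • u) ^ 2 + q (h - t • u) ^ 2 = 2 * q h ^ 2 + 2 * (t ^ 2 * q u ^ 2))
    (hmid : ∀ t : ℝ, 2 * q h ≤ q (h + t • u) + q (h - t • u)) :
    Tendsto (fun t : ℝ => (q (h + t • u) + q (h - t • u) - 2 * q h) / t) (𝓝[>] 0) (𝓝 0) := by
  have h1 : Tendsto (fun t : ℝ => t * (q u ^ 2 / q h)) (𝓝[>] 0) (𝓝 0) := by
    have : Tendsto (fun t : ℝ => t * (q u ^ 2 / q h)) (𝓝 0) (𝓝 (0 * (q u ^ 2 / q h))) :=
      Continuous.tendsto (by fun_prop) 0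
    rw [zero_mul] at this
    exact this.mono_left nhdsWithin_le_nhds
  refine tendsto_of_tendsto_of_tendsto_of_le_of_le' tendsto_const_nhds h1 ?_ ?_
  · filter_upwards [self_mem_nhdsWithin] with t ht
    have ht' : (0 : ℝ) < t := ht
    exact div_nonneg (by linarith [hmid t]) ht'.le
  · filter_upwards [self_mem_nhdsWithin] with t ht
    have ht' : (0 : ℝ) < t := ht
    rw [div_le_iff₀ ht']
    have := para_bound hp (hpar t)
    calc _ ≤ t ^ 2 * (q u ^ 2 / q h) := this
      _ = _ := by ring

/-- Summation over lines. -/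
lemma group_zero {z g : ℕ → H} {a b : ℕ → ℝ} (ha : Summable a) (hb : Summable b)
    (ha0 : ∀ k, z k = 0 → a k = 0) (hb0 : ∀ k, g k = 0 → b k = 0)
    (S : Submodule ℝ H) (hz : ∀ k, z k ∈ S) (hg : ∀ k, g k ∈ S)
    (hM : ∀ ψ ∈ S, ψ ≠ 0 → ∑' k, (open Classical in if z k ∈ Submodule.span ℝ {ψ} then a k else 0) =
      ∑' k, (open Classical in if g k ∈ Submodule.span ℝ {ψ} then b k else 0)) :
    ∑' k, a k = ∑' k, b k := by
  classical
  set v : ℕ ⊕ ℕ → H := Sum.elim z g with hv
  set w : ℕ ⊕ ℕ → ℝ := Sum.elim a (fun k => - b k) with hw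
  have hw0 : ∀ i, v i = 0 → w i = 0 := by
    rintro (k | k) h
    · exact ha0 k h
    · simp only [hw, Sum.elim_inr, neg_eq_zero]
      exact hb0 k h
  have hvS : ∀ i, v i ∈ S := by
    rintro (k | k)
    · exact hz k
    · exact hg k
  have hsum : HasSum w (∑' k, a k + ∑' k, - b k) :=
    HasSum.sum (f := w) ha.hasSum hb.neg.hasSum
  have hfib := hsum.tsum_fiberwise (fun i => Submodule.span ℝ {v i})
  have hzero : ∀ c : Submodule ℝ H,
      ∑' i : (fun i => Submodule.span ℝ {v i}) ⁻¹' {c}, w i = 0 := by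
    intro c
    by_cases hne : ∃ i, Submodule.span ℝ {v i} = c ∧ v i ≠ 0
    · obtain ⟨i0, hi0, hv0⟩ := hne
      have e1 : ∑' i : (fun i => Submodule.span ℝ {v i}) ⁻¹' {c}, w i =
          ∑' i, (if v i ∈ Submodule.span ℝ {v i0} then w i else 0) := by
        rw [tsum_subtype ((fun i => Submodule.span ℝ {v i}) ⁻¹' {c}) w]
        refine tsum_congr fun i => ?_
        by_cases hvi : v i = 0
        · simp [Set.indicator_apply, hw0 i hvi]
        · rw [Set.indicator_apply]
          congr 1
          simp only [Set.mem_preimage, Set.mem_singleton_iff, eq_iff_iff]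
          rw [← hi0]
          constructor
          · intro h
            rw [← h]
            exact Submodule.mem_span_singleton_self _
          · intro h
            obtain ⟨r, hr⟩ := Submodule.mem_span_singleton.mp h
            have hr0 : r ≠ 0 := by
              rintro rfl
              rw [zero_smul] at hr
              exact hvi hr.symm
            rw [← hr]
            exact Submodule.span_singleton_smul_eq (isUnit_iff_ne_zero.mpr hr0) _
      rw [e1]
      have h2 := hM (v i0) (hvS i0) hv0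
      have s1 : Summable (fun k => if z k ∈ Submodule.span ℝ {v i0} then a k else 0) := by
        refine Summable.of_norm_bounded ha.norm fun k => ?_
        split_ifs
        · rfl
        · simp
      have s2 : Summable (fun k => if g k ∈ Submodule.span ℝ {v i0} then b k else 0) := by
        refine Summable.of_norm_bounded hb.norm fun k => ?_
        split_ifs
        · rfl
        · simp
      have h3 : HasSum (fun i => (if v i ∈ Submodule.span ℝ {v i0} then w i else 0))
          (∑' k, (if z k ∈ Submodule.span ℝ {v i0} then a k else 0) +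
            ∑' k, -(if g k ∈ Submodule.span ℝ {v i0} then b k else 0)) := by
        refine HasSum.sum ?_ ?_
        · exact s1.hasSum
        · have e2 : ((fun i => (if v i ∈ Submodule.span ℝ {v i0} then w i else 0)) ∘ Sum.inr) =
              fun k => -(if g k ∈ Submodule.span ℝ {v i0} then b k else 0) := by
            funext k
            simp only [Function.comp_apply, hv, hw, Sum.elim_inr]
            split_ifs <;> simp
          rw [e2]
          exact s2.neg.hasSum
      rw [h3.tsum_eq, h2, tsum_neg, add_neg_cancel]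
    · push Not at hne
      have : ∀ i : (fun i => Submodule.span ℝ {v i}) ⁻¹' {c}, w i = 0 := by
        rintro ⟨i, hi⟩
        exact hw0 i (hne i hi)
      simp [this]
  simp_rw [hzero] at hfib
  have h4 := hfib.unique hasSum_zero
  rw [tsum_neg] at h4
  linarith

end Pool.Agent.Lib_helper47.R
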