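import Pool.Agent.Lib_helper47.RJump

/-!
# Uniqueness of the decomposition norm + sum of absolute values
-/

namespace Pool.Agent.Lib_helper47.R

open Filter Set
open scoped Topology

variable {H : Type*} [NormedAddCommGroup H] [InnerProductSpace ℝ H] [CompleteSpace H]

open Classical in
/-- For every line, the parts of the two sums carried by the line agree. -/
lemma line_identity {S : Submodule ℝ H} (hS : IsClosed (S : Set H)) {c : ℕ → ℝ} (hc : ∀ k, 0 < c k)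
    {z g : ℕ → H} (hz : ∀ k, z k ∈ S) (hg : ∀ k, g k ∈ S)
    (hsz : Summable fun k => c k * ‖z k‖) (hsg : Summable fun k => c k * ‖g k‖)
    {Q : H → ℝ} (hQ : ∀ h ∈ S, Q h = ‖h‖ + T c z h - T c g h)
    (hQpos : ∀ h ∈ S, h ≠ 0 → 0 < Q h)
    (hpar : ∀ h ∈ S, ∀ u ∈ S, Q (h + u) ^ 2 + Q (h - u) ^ 2 = 2 * Q h ^ 2 + 2 * Q u ^ 2)
    (hhom : ∀ h ∈ S, ∀ t : ℝ, Q (t • h) ^ 2 = t ^ 2 * Q h ^ 2)
    (hmid : ∀ h ∈ S, ∀ u ∈ S, 2 * Q h ≤ Q (h + u) + Q (h - u))
    (hw : ∀ ψ ∈ S, ∃ w ∈ S, w ≠ 0 ∧ inner ℝ w ψ = 0)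
    {ψ : H} (hψ : ψ ∈ S) (hψ0 : ψ ≠ 0) {u : H} (hu : u ∈ S) :
    ∑' k, (if z k ∈ Submodule.span ℝ {ψ} then c k * |inner ℝ u (z k)| else 0) =
    ∑' k, (if g k ∈ Submodule.span ℝ {ψ} then c k * |inner ℝ u (g k)| else 0) := by
  -- choose a generic vector orthogonal to ψ
  obtain ⟨w, hwS, hw0, hwψ⟩ := hw ψ hψ
  have hψn : (‖ψ‖ ^ 2 : ℝ) ≠ 0 := by
    have := norm_pos_iff.mpr hψ0
    positivity
  set pr : H → H := fun v => if v ∈ Submodule.span ℝ {ψ} then w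
    else v - (inner ℝ v ψ / ‖ψ‖ ^ 2) • ψ with hpr
  set S' : Submodule ℝ H := S ⊓ (Submodule.span ℝ {ψ})ᗮ with hS'
  have hS'c : IsClosed (S' : Set H) := by
    have : (S' : Set H) = (S : Set H) ∩ ((Submodule.span ℝ {ψ})ᗮ : Submodule ℝ H) := rfl
    rw [this]
    exact hS.inter (Submodule.isClosed_orthogonal _)
  have hmemS' : ∀ v, v ∈ S' ↔ v ∈ S ∧ inner ℝ v ψ = 0 := by
    intro v
    rw [hS', Submodule.mem_inf, Submodule.mem_orthogonal_singleton_iff_inner_left]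
  have hprS' : ∀ v ∈ S, pr v ∈ S' := by
    intro v hv
    simp only [hpr]
    split_ifs with h
    · exact (hmemS' w).mpr ⟨hwS, hwψ⟩
    · refine (hmemS' _).mpr ⟨S.sub_mem hv (S.smul_mem _ hψ), ?_⟩
      rw [inner_sub_left, inner_smul_left, real_inner_self_eq_norm_sq]
      simp only [conj_trivial]
      field_simp
      ring
  have hpr0 : ∀ v, pr v ≠ 0 := by
    intro v
    simp only [hpr]
    split_ifs with h
    · exact hw0
    · intro h0
      apply h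
      rw [sub_eq_zero] at h0
      rw [h0]
      exact Submodule.smul_mem _ _ (Submodule.mem_span_singleton_self _)
  obtain ⟨h, hh, hne⟩ := exists_all_ne S' hS'c (fun i : ℕ ⊕ ℕ => pr (Sum.elim z g i))
    (by rintro (k | k); exacts [hprS' _ (hz k), hprS' _ (hg k)]) (fun i => hpr0 _)
  obtain ⟨hhS, hhψ⟩ := (hmemS' h).mp hh
  have hh0 : h ≠ 0 := by
    rintro rfl
    exact hne (Sum.inl 0) (inner_zero_left _)
  have key : ∀ v, v ∈ S → inner ℝ h (pr v) ≠ 0 →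
      (inner ℝ h v = 0 ↔ v ∈ Submodule.span ℝ {ψ}) := by
    intro v _ hv
    constructor
    · intro h0
      by_contra hnot
      apply hv
      simp only [hpr, hnot, if_false]
      rw [inner_sub_right, inner_smul_right, h0, hhψ]; simp
    · intro hmem
      obtain ⟨r, rfl⟩ := Submodule.mem_span_singleton.mp hmem
      rw [inner_smul_right, hhψ, mul_zero]
  -- compute the jumps
  have J1 := T_jump hc hsz h u
  have J2 := T_jump hc hsg h u
  have J3 : Tendsto (fun t : ℝ => (‖h + t • u‖ + ‖h - t • u‖ - 2 * ‖h‖) / t) (𝓝[>] 0) (𝓝 0) := by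
    refine para_jump (q := fun x => ‖x‖) (norm_pos_iff.mpr hh0) (fun t => ?_) (fun t => ?_)
    · have := parallelogram_law_with_norm ℝ h (t • u)
      rw [norm_smul, Real.norm_eq_abs] at this
      have h5 : (|t| * ‖u‖) * (|t| * ‖u‖) = t ^ 2 * ‖u‖ ^ 2 := by
        rw [← sq_abs t]; ring
      nlinarith
    · have : (2 : ℝ) • h = (h + t • u) + (h - t • u) := by rw [two_smul]; abel
      calc 2 * ‖h‖ = ‖(2 : ℝ) • h‖ := by rw [norm_smul]; norm_num
        _ ≤ _ := by rw [this]; exact norm_add_le _ _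
  have J4 : Tendsto (fun t : ℝ => (Q (h + t • u) + Q (h - t • u) - 2 * Q h) / t) (𝓝[>] 0) (𝓝 0) := by
    refine para_jump (hQpos h hhS hh0) (fun t => ?_) (fun t => hmid h hhS _ (S.smul_mem t hu))
    rw [hpar h hhS _ (S.smul_mem t hu), hhom u hu]
  have J5 := (J3.add J1).sub J2
  have J6 : (fun t : ℝ => (Q (h + t • u) + Q (h - t • u) - 2 * Q h) / t) = fun t : ℝ =>
      (‖h + t • u‖ + ‖h - t • u‖ - 2 * ‖h‖) / t +
      (T c z (h + t • u) + T c z (h - t • u) - 2 * T c z h) / t -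
      (T c g (h + t • u) + T c g (h - t • u) - 2 * T c g h) / t := by
    funext t
    rw [hQ h hhS, hQ _ (S.add_mem hhS (S.smul_mem t hu)), hQ _ (S.sub_mem hhS (S.smul_mem t hu))]
    ring
  rw [J6] at J4
  have J7 := tendsto_nhds_unique J4 J5
  have e1 : ∀ k, c k * (if inner ℝ h (z k) = 0 then 2 * |inner ℝ u (z k)| else 0) =
      2 * (if z k ∈ Submodule.span ℝ {ψ} then c k * |inner ℝ u (z k)| else 0) := by
    intro k
    have := key (z k) (hz k) (hne (Sum.inl k))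
    by_cases h1 : z k ∈ Submodule.span ℝ {ψ}
    · rw [if_pos (this.mpr h1), if_pos h1]; ring
    · rw [if_neg (fun h2 => h1 (this.mp h2)), if_neg h1]; ring
  have e2 : ∀ k, c k * (if inner ℝ h (g k) = 0 then 2 * |inner ℝ u (g k)| else 0) =
      2 * (if g k ∈ Submodule.span ℝ {ψ} then c k * |inner ℝ u (g k)| else 0) := by
    intro k
    have := key (g k) (hg k) (hne (Sum.inr k))
    by_cases h1 : g k ∈ Submodule.span ℝ {ψ}
    · rw [if_pos (this.mpr h1), if_pos h1]; ring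
    · rw [if_neg (fun h2 => h1 (this.mp h2)), if_neg h1]; ring
  simp_rw [e1, e2] at J7
  rw [tsum_mul_left, tsum_mul_left] at J7
  linarith

open Classical in
/-- The conclusions: equality of the Hilbert norms, of the norms of the functionals, and of the
masses of lines. -/
lemma decomposition_unique {S : Submodule ℝ H} (hS : IsClosed (S : Set H)) {c : ℕ → ℝ}
    (hc : ∀ k, 0 < c k)
    {z g : ℕ → H} (hz : ∀ k, z k ∈ S) (hg : ∀ k, g k ∈ S)
    (hsz : Summable fun k => c k * ‖z k‖) (hsg : Summable fun k => c k * ‖g k‖)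
    {Q : H → ℝ} (hQ : ∀ h ∈ S, Q h = ‖h‖ + T c z h - T c g h)
    (hQpos : ∀ h ∈ S, h ≠ 0 → 0 < Q h)
    (hpar : ∀ h ∈ S, ∀ u ∈ S, Q (h + u) ^ 2 + Q (h - u) ^ 2 = 2 * Q h ^ 2 + 2 * Q u ^ 2)
    (hhom : ∀ h ∈ S, ∀ t : ℝ, Q (t • h) ^ 2 = t ^ 2 * Q h ^ 2)
    (hmid : ∀ h ∈ S, ∀ u ∈ S, 2 * Q h ≤ Q (h + u) + Q (h - u))
    (hw : ∀ ψ ∈ S, ∃ w ∈ S, w ≠ 0 ∧ inner ℝ w ψ = 0)
    (hCS : ∀ h ∈ S, ∀ k, |inner ℝ h (g k)| ≤ Q h * ‖z k‖) :
    (∀ h ∈ S, Q h = ‖h‖) ∧ (∀ k, ‖g k‖ = ‖z k‖) ∧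
    (∀ ψ ∈ S, ψ ≠ 0 → ∑' k, (if z k ∈ Submodule.span ℝ {ψ} then c k * ‖z k‖ else 0) =
      ∑' k, (if g k ∈ Submodule.span ℝ {ψ} then c k * ‖g k‖ else 0)) := by
  have L := fun (ψ : H) (hψ : ψ ∈ S) (hψ0 : ψ ≠ 0) (u : H) (hu : u ∈ S) =>
    line_identity hS hc hz hg hsz hsg hQ hQpos hpar hhom hmid hw hψ hψ0 hu
  have h1 : ∀ h ∈ S, Q h = ‖h‖ := by
    intro u hu
    have h2 : T c z u = T c g u := by
      unfold T
      refine group_zero (z := z) (g := g) (T_summable hc hsz u) (T_summable hc hsg u)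
        (fun k hk => by rw [hk, inner_zero_right, abs_zero, mul_zero])
        (fun k hk => by rw [hk, inner_zero_right, abs_zero, mul_zero]) S hz hg ?_
      intro ψ hψ hψ0
      exact L ψ hψ hψ0 u hu
    rw [hQ u hu, h2]; ring
  have hle : ∀ k, ‖g k‖ ≤ ‖z k‖ := by
    intro k
    have h3 := hCS (g k) (hg k) k
    rw [h1 (g k) (hg k), real_inner_self_eq_norm_sq, abs_of_nonneg (by positivity)] at h3
    by_contra hlt
    push Not at hlt
    have h4 : 0 < ‖g k‖ := lt_of_le_of_lt (norm_nonneg _) hlt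
    nlinarith
  have hmass : ∀ ψ ∈ S, ψ ≠ 0 → ∑' k, (if z k ∈ Submodule.span ℝ {ψ} then c k * ‖z k‖ else 0) =
      ∑' k, (if g k ∈ Submodule.span ℝ {ψ} then c k * ‖g k‖ else 0) := by
    intro ψ hψ hψ0
    have h5 := L ψ hψ hψ0 ψ hψ
    have hn : ‖ψ‖ ≠ 0 := norm_ne_zero_iff.mpr hψ0
    have e : ∀ v : H, ∀ a : ℝ, (if v ∈ Submodule.span ℝ {ψ} then a * |inner ℝ ψ v| else 0) =
        ‖ψ‖ * (if v ∈ Submodule.span ℝ {ψ} then a * ‖v‖ else 0) := by
      intro v a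
      split_ifs with hv
      · obtain ⟨r, rfl⟩ := Submodule.mem_span_singleton.mp hv
        rw [inner_smul_right, real_inner_self_eq_norm_sq, norm_smul, abs_mul, Real.norm_eq_abs,
          abs_of_nonneg (by positivity : (0:ℝ) ≤ ‖ψ‖ ^ 2)]
        ring
      · simp
    simp_rw [e] at h5
    rw [tsum_mul_left, tsum_mul_left] at h5
    exact mul_left_cancel₀ hn h5
  refine ⟨h1, ?_, hmass⟩
  have htot : ∑' k, c k * ‖z k‖ = ∑' k, c k * ‖g k‖ := by
    refine group_zero (z := z) (g := g) hsz hsg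
        (fun k hk => by rw [hk, norm_zero, mul_zero])
        (fun k hk => by rw [hk, norm_zero, mul_zero]) S hz hg hmass
  intro k
  by_contra hne
  have hlt : ‖g k‖ < ‖z k‖ := lt_of_le_of_ne (hle k) hne
  have : ∑' k, c k * ‖g k‖ < ∑' k, c k * ‖z k‖ :=
    Summable.tsum_lt_tsum (i := k) (fun j => mul_le_mul_of_nonneg_left (hle j) (hc j).le)
      (mul_lt_mul_of_pos_left hlt (hc k)) hsg hsz
  linarith

end Pool.Agent.Lib_helper47.R
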