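import Pool.Agent.Lib_helper47.RSection

/-!
# An overcomplete sequence in `ℓ²`
-/

namespace Pool.Agent.Lib_helper47.R

open Filter Set
open scoped Topology

/-- The sequence space `ℓ²`. -/
abbrev L2 : Type := lp (fun _ : ℕ => ℝ) 2

noncomputable def lam (k : ℕ) : ℝ := (1 / 2) ^ (k + 1)

lemma lam_pos (k : ℕ) : 0 < lam k := by unfold lam; positivity

lemma lam_le (k : ℕ) : lam k ≤ 1 / 2 := by
  unfold lam
  rw [pow_succ]
  have : (1 / 2 : ℝ) ^ k ≤ 1 := pow_le_one₀ (by norm_num) (by norm_num)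
  linarith

lemma lam_succ (k : ℕ) : lam (k + 1) = lam k / 2 := by unfold lam; rw [pow_succ]; ring

lemma lam_tendsto : Tendsto lam atTop (𝓝 0) := by
  have h1 : Tendsto (fun k : ℕ => (1 / 2 : ℝ) ^ k) atTop (𝓝 0) :=
    tendsto_pow_atTop_nhds_zero_of_lt_one (by norm_num) (by norm_num)
  exact (tendsto_add_atTop_iff_nat 1).mpr h1

lemma lam_sq_lt (k : ℕ) : lam k ^ 2 < 1 := by nlinarith [lam_pos k, lam_le k]

/-- The geometric sequences `(λ_k^i)_i`. -/
noncomputable def fs (k : ℕ) : L2 := ⟨fun i => lam k ^ i, by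
  refine memℓp_gen ?_
  have : (fun i : ℕ => ‖lam k ^ i‖ ^ (2 : ENNReal).toReal) = fun i => (lam k ^ 2) ^ i := by
    funext i
    rw [ENNReal.toReal_ofNat, Real.rpow_ofNat, Real.norm_of_nonneg (pow_nonneg (lam_pos k).le i)]
    ring
  rw [this]
  exact summable_geometric_of_lt_one (sq_nonneg _) (lam_sq_lt k)⟩

lemma fs_apply (k i : ℕ) : (fs k : ∀ _ : ℕ, ℝ) i = lam k ^ i := rfl

lemma inner_L2 (g h : L2) : inner ℝ g h = ∑' i, (g : ∀ _ : ℕ, ℝ) i * (h : ∀ _ : ℕ, ℝ) i := by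
  rw [lp.inner_eq_tsum]
  exact tsum_congr fun i => by simp [mul_comm]

lemma summable_L2 (g h : L2) : Summable fun i => (g : ∀ _ : ℕ, ℝ) i * (h : ∀ _ : ℕ, ℝ) i := by
  have := lp.summable_inner (𝕜 := ℝ) g h
  refine this.congr fun i => ?_
  simp [mul_comm]

lemma fs_norm_sq (k : ℕ) : ‖fs k‖ ^ 2 = (1 - lam k ^ 2)⁻¹ := by
  rw [← real_inner_self_eq_norm_sq, inner_L2]
  simp_rw [fs_apply]
  rw [← tsum_geometric_of_lt_one (sq_nonneg (lam k)) (lam_sq_lt k)]
  exact tsum_congr fun i => by ring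

lemma fs_norm_le (k : ℕ) : ‖fs k‖ ≤ 2 := by
  have h1 := fs_norm_sq k
  have h2 : (1 - lam k ^ 2)⁻¹ ≤ 4 := by
    rw [inv_le_comm₀ (by linarith [lam_sq_lt k]) (by norm_num)]
    nlinarith [lam_pos k, lam_le k]
  nlinarith [norm_nonneg (fs k)]

lemma abs_apply_le (y : L2) (i : ℕ) : |(y : ∀ _ : ℕ, ℝ) i| ≤ ‖y‖ := by
  have := lp.norm_apply_le_norm (p := 2) (by norm_num) y i
  simpa using this

/-- Overcompleteness. -/
lemma fs_oc (y : L2) (hy : y ≠ 0) : ∀ᶠ k in atTop, inner ℝ (fs k) y ≠ 0 := by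
  classical
  have hex : ∃ i, (y : ∀ _ : ℕ, ℝ) i ≠ 0 := by
    by_contra h
    push Not at h
    apply hy
    ext i
    exact h i
  set m := Nat.find hex with hm
  have hm0 : (y : ∀ _ : ℕ, ℝ) m ≠ 0 := Nat.find_spec hex
  have hlow : ∀ i, i < m → (y : ∀ _ : ℕ, ℝ) i = 0 := fun i hi => by
    have := Nat.find_min hex hi
    push Not at this
    exact this
  have hev : ∀ᶠ k in atTop, 2 * lam k * ‖y‖ < |(y : ∀ _ : ℕ, ℝ) m| := by
    have h1 : Tendsto (fun k => 2 * lam k * ‖y‖) atTop (𝓝 (2 * 0 * ‖y‖)) :=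
      (lam_tendsto.const_mul 2).mul_const _
    have h2 : (2 * 0 * ‖y‖ : ℝ) < |(y : ∀ _ : ℕ, ℝ) m| := by
      have := abs_pos.mpr hm0
      simpa using this
    exact h1.eventually (gt_mem_nhds h2)
  filter_upwards [hev] with k hk h0
  rw [inner_L2] at h0
  have hs := summable_L2 (fs k) y
  simp_rw [fs_apply] at h0 hs
  have h1 := (hs.sum_add_tsum_nat_add (m + 1)).symm
  rw [h0, Finset.sum_range_succ,
    Finset.sum_eq_zero (fun i hi => by rw [hlow i (Finset.mem_range.mp hi), mul_zero]), zero_add] at h1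
  have hl0 := lam_pos k
  have hl1 := lam_le k
  have hg : HasSum (fun i : ℕ => lam k ^ (m + 1) * ‖y‖ * lam k ^ i)
      (lam k ^ (m + 1) * ‖y‖ * (1 - lam k)⁻¹) :=
    (hasSum_geometric_of_lt_one hl0.le (by linarith)).mul_left _
  have h2 : ‖∑' i, lam k ^ (i + (m + 1)) * (y : ∀ _ : ℕ, ℝ) (i + (m + 1))‖ ≤
      lam k ^ (m + 1) * ‖y‖ * (1 - lam k)⁻¹ := by
    refine tsum_of_norm_bounded hg fun i => ?_
    rw [norm_mul, norm_pow, Real.norm_of_nonneg hl0.le, Real.norm_eq_abs]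
    calc lam k ^ (i + (m + 1)) * |(y : ∀ _ : ℕ, ℝ) (i + (m + 1))|
        ≤ lam k ^ (i + (m + 1)) * ‖y‖ := by
          gcongr
          exact abs_apply_le y _
      _ = _ := by rw [pow_add]; ring
  have h3 : |lam k ^ m * (y : ∀ _ : ℕ, ℝ) m| ≤ lam k ^ (m + 1) * ‖y‖ * (1 - lam k)⁻¹ := by
    have : lam k ^ m * (y : ∀ _ : ℕ, ℝ) m =
        -∑' i, lam k ^ (i + (m + 1)) * (y : ∀ _ : ℕ, ℝ) (i + (m + 1)) := by linarith
    rw [this, abs_neg, ← Real.norm_eq_abs]; exact h2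
  have h4 : (1 - lam k)⁻¹ ≤ 2 := by
    rw [inv_le_comm₀ (by linarith) (by norm_num)]; linarith
  have h5 : lam k ^ (m + 1) * ‖y‖ * (1 - lam k)⁻¹ ≤ lam k ^ m * (2 * lam k * ‖y‖) := by
    calc lam k ^ (m + 1) * ‖y‖ * (1 - lam k)⁻¹ ≤ lam k ^ (m + 1) * ‖y‖ * 2 := by
          gcongr
      _ = _ := by rw [pow_succ]; ring
  rw [abs_mul, abs_of_pos (pow_pos hl0 m)] at h3
  have h6 := mul_lt_mul_of_pos_left hk (pow_pos hl0 m)
  linarith

/-- Infinite dimensionality, in the form: finite-dimensional subspaces have nonzero orthogonal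
vectors. -/
lemma L2_orth (F : Submodule ℝ L2) [FiniteDimensional ℝ F] : ∃ g : L2, g ≠ 0 ∧ ∀ h ∈ F, inner ℝ g h = 0 := by
  classical
  have hinf : ¬ FiniteDimensional ℝ L2 := by
    intro hfd
    have hort : Orthonormal ℝ (fun i : ℕ => (lp.single 2 i (1 : ℝ) : L2)) := by
      rw [orthonormal_iff_ite]
      intro i j
      rw [lp.inner_single_left]
      simp only [lp.single_apply]
      by_cases hij : i = j
      · subst hij; simp
      · simp [hij]
    have := hort.linearIndependent.finite_of_isNoetherian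
    exact not_finite ℕ
  have hFtop : F ≠ ⊤ := by
    intro h
    apply hinf
    have h1 : FiniteDimensional ℝ (⊤ : Submodule ℝ L2) := by rw [← h]; infer_instance
    exact Module.Finite.of_surjective (⊤ : Submodule ℝ L2).subtype
      (by intro x; exact ⟨⟨x, Submodule.mem_top⟩, rfl⟩)
  have hne : Fᗮ ≠ ⊥ := by
    intro h
    exact hFtop ((Submodule.orthogonal_eq_bot_iff).mp h)
  obtain ⟨g, hg, hg0⟩ := Submodule.exists_mem_ne_zero_of_ne_bot hne
  exact ⟨g, hg0, fun h hh => (Submodule.mem_orthogonal' F g).mp hg h hh⟩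

/-- The limit of the sequence. -/
noncomputable def e0 : L2 := lp.single 2 0 (1 : ℝ)

lemma fs_tendsto : Tendsto fs atTop (𝓝 e0) := by
  rw [tendsto_iff_norm_sub_tendsto_zero]
  have h1 : ∀ k, ‖fs k - e0‖ ^ 2 = (1 - lam k ^ 2)⁻¹ - 1 := by
    intro k
    rw [norm_sub_sq_real, fs_norm_sq]
    have h2 : inner ℝ (fs k) e0 = 1 := by
      rw [e0, lp.inner_single_right]; simp [fs_apply]
    have h3 : ‖e0‖ ^ 2 = 1 := by
      rw [← real_inner_self_eq_norm_sq, e0, lp.inner_single_right]; simp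
    rw [h2, h3]; ring
  have h4 : Tendsto (fun k => ‖fs k - e0‖ ^ 2) atTop (𝓝 0) := by
    simp_rw [h1]
    have : Tendsto (fun k => (1 - lam k ^ 2)⁻¹ - 1) atTop (𝓝 ((1 - (0 : ℝ) ^ 2)⁻¹ - 1)) := by
      refine Tendsto.sub_const (Tendsto.inv₀ (tendsto_const_nhds.sub (lam_tendsto.pow 2)) ?_) 1
      norm_num
    simpa using this
  have h5 := h4.sqrt
  simp_rw [Real.sqrt_sq (norm_nonneg _)] at h5
  simpa using h5

/-- The weights. -/
noncomputable def cs (k : ℕ) : ℝ := (1 / 8) ^ k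

lemma cs_pos (k : ℕ) : 0 < cs k := by unfold cs; positivity

lemma cs_succ (k : ℕ) : cs (k + 1) = cs k / 8 := by unfold cs; rw [pow_succ]; ring

lemma cs_summable : Summable fun k => cs k * 2 := by
  unfold cs
  exact (summable_geometric_of_lt_one (by norm_num) (by norm_num)).mul_right 2

/-- The masses are eventually lacunary. -/
lemma fs_lac {u : L2} (hu : ‖u‖ ≤ 1) : ∀ᶠ k in atTop, 0 < cs k * ‖A u (fs k)‖ ∧
    cs (k + 1) * ‖A u (fs (k + 1))‖ ≤ cs k * ‖A u (fs k)‖ / 4 := by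
  suffices h : ∀ᶠ k in atTop, 0 < ‖A u (fs k)‖ ∧ ‖A u (fs (k + 1))‖ ≤ 2 * ‖A u (fs k)‖ by
    filter_upwards [h] with k hk
    refine ⟨mul_pos (cs_pos k) hk.1, ?_⟩
    rw [cs_succ]
    have := cs_pos k
    calc cs k / 8 * ‖A u (fs (k + 1))‖ ≤ cs k / 8 * (2 * ‖A u (fs k)‖) := by
          gcongr
          exact hk.2
      _ = _ := by ring
  have hT : Tendsto (fun k => ‖A u (fs k)‖) atTop (𝓝 ‖A u e0‖) :=
    (((A u).continuous.tendsto _).comp fs_tendsto).norm
  by_cases h0 : A u e0 = 0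
  · -- then `u = ± e0`
    have h1 := A_norm_sq hu e0
    have h2 : ‖e0‖ ^ 2 = 1 := by
      rw [← real_inner_self_eq_norm_sq, e0, lp.inner_single_right]; simp
    rw [h0, norm_zero, h2] at h1
    have h3 : inner ℝ u e0 ^ 2 = 1 := by linarith
    have hun : ‖u‖ ^ 2 ≤ 1 := by nlinarith [norm_nonneg u]
    have h4 : ‖u - (inner ℝ u e0 : ℝ) • e0‖ ^ 2 ≤ 0 := by
      rw [norm_sub_sq_real, inner_smul_right, norm_smul, mul_pow, h2, Real.norm_eq_abs, sq_abs]
      nlinarith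
    have h5 : u = (inner ℝ u e0 : ℝ) • e0 := by
      have : ‖u - (inner ℝ u e0 : ℝ) • e0‖ = 0 :=
        pow_eq_zero_iff two_ne_zero |>.mp (le_antisymm h4 (sq_nonneg _))
      exact sub_eq_zero.mp (norm_eq_zero.mp this)
    have h6 : ∀ k, inner ℝ u (fs k) ^ 2 = 1 := by
      intro k
      have e : inner ℝ e0 (fs k) = 1 := by
        rw [e0, lp.inner_single_left]; simp [fs_apply]
      rw [h5, inner_smul_left, e]
      simp only [conj_trivial, mul_one]
      exact h3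
    have h7 : ∀ k, ‖A u (fs k)‖ ^ 2 = (1 - lam k ^ 2)⁻¹ - 1 := by
      intro k
      rw [A_norm_sq hu, fs_norm_sq, h6]
    refine Eventually.of_forall fun k => ?_
    have hl0 := lam_pos k
    have hl1 := lam_sq_lt k
    have h8 : 1 < (1 - lam k ^ 2)⁻¹ := by
      rw [one_lt_inv₀ (by linarith)]
      nlinarith
    have h9 : 0 < ‖A u (fs k)‖ := by
      have h12 : 0 < ‖A u (fs k)‖ ^ 2 := by rw [h7]; linarith
      refine norm_pos_iff.mpr fun h13 => ?_
      rw [h13, norm_zero] at h12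
      norm_num at h12
    refine ⟨h9, ?_⟩
    have h10 : ‖A u (fs (k + 1))‖ ^ 2 ≤ ‖A u (fs k)‖ ^ 2 := by
      rw [h7, h7]
      have : (1 - lam (k + 1) ^ 2)⁻¹ ≤ (1 - lam k ^ 2)⁻¹ := by
        apply inv_anti₀ (by linarith)
        rw [lam_succ]
        nlinarith
      linarith
    have h11 := (abs_le_of_sq_le_sq' h10 (norm_nonneg _)).2
    linarith
  · have hL : 0 < ‖A u e0‖ := norm_pos_iff.mpr h0
    have e1 : ∀ᶠ k in atTop, 2 / 3 * ‖A u e0‖ < ‖A u (fs k)‖ :=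
      hT.eventually (lt_mem_nhds (by linarith))
    have e2 : ∀ᶠ k in atTop, ‖A u (fs (k + 1))‖ < 4 / 3 * ‖A u e0‖ :=
      ((tendsto_add_atTop_iff_nat 1).mpr hT).eventually (gt_mem_nhds (by linarith))
    filter_upwards [e1, e2] with k h1 h2
    constructor
    · linarith
    · linarith

end Pool.Agent.Lib_helper47.R
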