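import Mathlib

/-!
# Choosing a sign continuously over a contractible compact space
-/

namespace Pool.Agent.Lib_helper47.R

open Filter Set
open scoped Topology unitInterval

/-- If the products `u i * u j` are continuous on a compact contractible space and the `u j` have no
common zero, then for some nonvanishing `β` all `β * u j` are continuous. -/
theorem sign_lift {K : Type*} [TopologicalSpace K] [CompactSpace K] {ι : Type*}
    (u : ι → K → ℝ) (hu : ∀ i j, Continuous fun x => u i x * u j x)
    (hne : ∀ x, ∃ j, u j x ≠ 0) (x0 : K) (c : unitInterval × K → K) (hc : Continuous c)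
    (hc0 : ∀ x, c (0, x) = x0) (hc1 : ∀ x, c (1, x) = x) :
    ∃ β : K → ℝ, (∀ x, β x ≠ 0) ∧ ∀ j, Continuous fun x => β x * u j x := by
  classical
  -- a finite set of indices without common zero
  obtain ⟨F, hF⟩ : ∃ F : Finset ι, ∀ x, ∃ j ∈ F, u j x ≠ 0 := by
    have hcov : (univ : Set K) ⊆ ⋃ j, {x | u j x * u j x ≠ 0} := by
      intro x _
      obtain ⟨j, hj⟩ := hne x
      exact mem_iUnion.mpr ⟨j, mul_ne_zero hj hj⟩
    obtain ⟨F, hF⟩ := isCompact_univ.elim_finite_subcover (fun j => {x | u j x * u j x ≠ 0})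
      (fun j => isOpen_ne_fun (hu j j) continuous_const) hcov
    refine ⟨F, fun x => ?_⟩
    obtain ⟨j, hj⟩ := mem_iUnion.mp (hF (mem_univ x))
    obtain ⟨hjF, hj⟩ := mem_iUnion.mp hj
    exact ⟨j, hjF, fun h => hj (by rw [h, mul_zero])⟩
  -- the kernel
  set κ : K → K → ℝ := fun x y => ∑ i ∈ F, u i x * u i y with hκ
  have hκ2 : ∀ x y, κ x y ^ 2 = ∑ i ∈ F, ∑ j ∈ F, (u i x * u j x) * (u i y * u j y) := by
    intro x y
    rw [hκ, sq, Finset.sum_mul_sum]
    refine Finset.sum_congr rfl fun i _ => Finset.sum_congr rfl fun j _ => ?_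
    ring
  have hκc : Continuous fun p : K × K => κ p.1 p.2 ^ 2 := by
    simp_rw [hκ2]
    refine continuous_finsetSum _ fun i _ => continuous_finsetSum _ fun j _ => ?_
    exact ((hu i j).comp continuous_fst).mul ((hu i j).comp continuous_snd)
  have hκd : ∀ x, 0 < κ x x ^ 2 := by
    intro x
    have : 0 < κ x x := by
      obtain ⟨j, hjF, hj⟩ := hF x
      refine Finset.sum_pos' (fun i _ => mul_self_nonneg _) ⟨j, hjF, ?_⟩
      exact mul_self_pos.mpr hj
    positivity
  -- uniform step
  obtain ⟨δ, hδ, hδκ⟩ : ∃ δ : ℝ, 0 < δ ∧ ∀ (s t : unitInterval) (x : K), |(s : ℝ) - t| < δ →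
      κ (c (s, x)) (c (t, x)) ≠ 0 := by
    set D : Set (unitInterval × unitInterval × K) :=
      {p | κ (c (p.1, p.2.2)) (c (p.2.1, p.2.2)) ^ 2 = 0} with hD
    have hDc : IsClosed D := by
      refine isClosed_eq ?_ continuous_const
      exact hκc.comp ((hc.comp (by fun_prop)).prodMk (hc.comp (by fun_prop)))
    rcases D.eq_empty_or_nonempty with hDe | hDne
    · refine ⟨1, one_pos, fun s t x _ h0 => ?_⟩
      have : (s, t, x) ∈ D := by
        change κ (c (s, x)) (c (t, x)) ^ 2 = 0
        rw [h0]; norm_num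
      rw [hDe] at this
      exact this
    · obtain ⟨p0, hp0, hmin⟩ := hDc.isCompact.exists_isMinOn hDne
        (f := fun p : unitInterval × unitInterval × K => |(p.1 : ℝ) - p.2.1|)
        (Continuous.continuousOn (by fun_prop))
      refine ⟨|(p0.1 : ℝ) - p0.2.1|, ?_, fun s t x hst h0 => ?_⟩
      · rw [abs_pos, sub_ne_zero]
        intro h
        have h1 : p0.1 = p0.2.1 := Subtype.ext h
        have h2 : κ (c (p0.1, p0.2.2)) (c (p0.2.1, p0.2.2)) ^ 2 = 0 := hp0
        rw [h1] at h2
        exact (hκd _).ne' h2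
      · have : (s, t, x) ∈ D := by
          change κ (c (s, x)) (c (t, x)) ^ 2 = 0
          rw [h0]; norm_num
        have h3 := hmin this
        simp only [mem_ofPred_eq] at h3
        linarith
  obtain ⟨N, hN⟩ := exists_nat_gt (1 / δ)
  have hNpos : (0 : ℝ) < N := lt_trans (by positivity) hN
  have hN1 : 1 / (N : ℝ) < δ := by
    rw [div_lt_iff₀ hNpos]
    rw [div_lt_iff₀ hδ] at hN
    linarith
  set τ : ℕ → unitInterval := fun k => projIcc 0 1 zero_le_one ((k : ℝ) / N) with hτ
  have hτv : ∀ k, k ≤ N → ((τ k : unitInterval) : ℝ) = k / N := by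
    intro k hk
    have : ((k : ℝ) / N) ∈ Icc (0 : ℝ) 1 := by
      constructor
      · positivity
      · rw [div_le_one hNpos]; exact_mod_cast hk
    simp only [hτ]
    rw [projIcc_of_mem _ this]
  -- iteration
  have hiter : ∀ k, k ≤ N → ∃ β : K → ℝ, (∀ x, β x ≠ 0) ∧
      ∀ j, Continuous fun x => β x * u j (c (τ k, x)) := by
    intro k
    induction k with
    | zero =>
      intro _
      refine ⟨fun _ => 1, fun _ => one_ne_zero, fun j => ?_⟩
      have h0 : τ 0 = 0 := by
        apply Subtype.ext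
        rw [hτv 0 (Nat.zero_le _)]; simp
      simp only [h0, hc0]
      exact continuous_const
    | succ k ih =>
      intro hk
      obtain ⟨β, hβ, hβc⟩ := ih (by omega)
      refine ⟨fun x => β x * κ (c (τ (k + 1), x)) (c (τ k, x)), fun x => ?_, fun j => ?_⟩
      · refine mul_ne_zero (hβ x) (hδκ _ _ _ ?_)
        rw [hτv _ hk, hτv k (by omega)]
        have : ((k + 1 : ℕ) : ℝ) / N - (k : ℝ) / N = 1 / N := by push_cast; ring
        rw [this, abs_of_pos (by positivity)]
        exact hN1
      · have e : (fun x => β x * κ (c (τ (k + 1), x)) (c (τ k, x)) * u j (c (τ (k + 1), x))) =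
            fun x => ∑ i ∈ F, (u j (c (τ (k + 1), x)) * u i (c (τ (k + 1), x))) *
              (β x * u i (c (τ k, x))) := by
          funext x
          simp only [hκ]
          rw [Finset.mul_sum, Finset.sum_mul]
          refine Finset.sum_congr rfl fun i _ => ?_
          ring
        rw [e]
        refine continuous_finsetSum _ fun i _ => ?_
        exact ((hu j i).comp (hc.comp (by fun_prop))).mul (hβc i)
  obtain ⟨β, hβ, hβc⟩ := hiter N le_rfl
  refine ⟨β, hβ, fun j => ?_⟩
  have h1 : τ N = 1 := by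
    apply Subtype.ext
    rw [hτv N le_rfl, div_self hNpos.ne']; simp
  have := hβc j
  simp only [h1, hc1] at this
  exact this

end Pool.Agent.Lib_helper47.R
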