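import Pool.Agent.Lib_helper47.RUltra
import Pool.Agent.Lib_helper47.RSign
import Pool.Agent.Lib_helper47.RSeq
import Pool.Agent.Lib_helper47.RDefs

/-!
# No continuous isometric recoding
-/

namespace Pool.Agent.Lib_helper47.R

open Filter Set
open scoped Topology

section general

variable {H : Type*} [NormedAddCommGroup H] [InnerProductSpace ℝ H]

lemma T_add_le {c : ℕ → ℝ} (hc : ∀ k, 0 < c k) {z : ℕ → H}
    (hs : Summable fun k => c k * ‖z k‖) (g h : H) : T c z (g + h) ≤ T c z g + T c z h := by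
  unfold T
  rw [← (T_summable hc hs g).tsum_add (T_summable hc hs h)]
  refine (T_summable hc hs (g + h)).tsum_le_tsum (fun k => ?_)
    ((T_summable hc hs g).add (T_summable hc hs h))
  rw [← mul_add, inner_add_left]
  exact mul_le_mul_of_nonneg_left (abs_add_le _ _) (hc k).le

lemma T_smul {c : ℕ → ℝ} {z : ℕ → H} (r : ℝ) (h : H) : T c z (r • h) = ‖r‖ * T c z h := by
  unfold T
  rw [← tsum_mul_left]
  refine tsum_congr fun k => ?_
  rw [inner_smul_left, abs_mul, Real.norm_eq_abs]
  simp only [conj_trivial]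
  ring

lemma T_zero {c : ℕ → ℝ} {z : ℕ → H} : T c z 0 = 0 := by
  simp [T]

lemma T_nonneg {c : ℕ → ℝ} (hc : ∀ k, 0 < c k) {z : ℕ → H} (h : H) : 0 ≤ T c z h :=
  tsum_nonneg fun k => mul_nonneg (hc k).le (abs_nonneg _)

lemma T_continuous {c : ℕ → ℝ} (hc : ∀ k, 0 < c k) {z : ℕ → H}
    (hs : Summable fun k => c k * ‖z k‖) : Continuous (T c z) := by
  unfold T
  refine continuous_iff_continuousAt.mpr fun h0 => ?_
  have h1 : ∀ᶠ h in 𝓝 h0, ‖h‖ ≤ ‖h0‖ + 1 :=
    (continuous_norm.tendsto h0).eventually (gt_mem_nhds (lt_add_one _)) |>.mono fun h hh => hh.le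
  refine tendsto_tsum_of_dominated_convergence
    (bound := fun k => (‖h0‖ + 1) * (c k * ‖z k‖)) (hs.mul_left _) ?_ ?_
  · intro k
    have : Continuous fun h : H => c k * |inner ℝ h (z k)| := by fun_prop
    exact this.tendsto h0
  · filter_upwards [h1] with h hh k
    rw [norm_mul, Real.norm_of_nonneg (hc k).le, Real.norm_eq_abs, abs_abs]
    calc c k * |inner ℝ h (z k)| ≤ c k * (‖h‖ * ‖z k‖) :=
          mul_le_mul_of_nonneg_left (abs_real_inner_le_norm _ _) (hc k).le
      _ ≤ c k * ((‖h0‖ + 1) * ‖z k‖) := by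
          have := (hc k).le
          gcongr
      _ = _ := by ring

end general

/-! ### The family of seminorms -/

/-- the vectors `φ_k(x)` -/
noncomputable def phi (x : K L2) (k : ℕ) : L2 := A (vec x) (fs k)

lemma phi_norm_le (x : K L2) (k : ℕ) : ‖phi x k‖ ≤ 2 :=
  (A_norm_le (norm_vec x) _).trans (fs_norm_le k)

lemma phi_summable (x : K L2) : Summable fun k => cs k * ‖phi x k‖ :=
  Summable.of_nonneg_of_le (fun k => mul_nonneg (cs_pos k).le (norm_nonneg _))
    (fun k => mul_le_mul_of_nonneg_left (phi_norm_le x k) (cs_pos k).le) cs_summable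

/-- `a ↦ A_x (∑ a_k f_k)` -/
noncomputable def Lx (x : K L2) : C00 →ₗ[ℝ] L2 :=
  (A (vec x) : L2 →ₗ[ℝ] L2) ∘ₗ (Finsupp.linearCombination ℝ fs)

lemma Lx_apply (x : K L2) (a : C00) : Lx x a = A (vec x) (Finsupp.linearCombination ℝ fs a) := rfl

lemma Lx_single (x : K L2) (k : ℕ) : Lx x (Finsupp.single k 1) = phi x k := by
  rw [Lx_apply, Finsupp.linearCombination_single, one_smul]; rfl

/-- the seminorm `μ_x` on `c₀₀` -/
noncomputable def px (x : K L2) : Seminorm ℝ C00 :=
  Seminorm.ofSMulLE (fun a => ‖Lx x a‖ + T cs (phi x) (Lx x a))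
    (by simp [T_zero])
    (fun a b => by
      rw [map_add]
      have h1 := norm_add_le (Lx x a) (Lx x b)
      have h2 := T_add_le cs_pos (phi_summable x) (Lx x a) (Lx x b)
      linarith)
    (fun r a => by
      rw [map_smul, norm_smul, T_smul, mul_add])

lemma px_apply (x : K L2) (a : C00) : px x a = ‖Lx x a‖ + T cs (phi x) (Lx x a) := rfl

/-- the corresponding element of `𝒫` -/
noncomputable def mux (x : K L2) : P :=
  ⟨fun v => px x (incl v), fun v w => by
      change px x (incl (v + w)) ≤ px x (incl v) + px x (incl w)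
      rw [incl_add]; exact map_add_le_add _ _ _,
    fun q v => by
      change px x (incl (q • v)) = |(q : ℝ)| * px x (incl v)
      rw [incl_smul, map_smul_eq_mul, Real.norm_eq_abs]⟩

lemma ext_mux (x : K L2) : ext (mux x) = px x :=
  (ext_unique (mux x) (px x) fun _ => rfl).symm

lemma px_continuous (a : C00) : Continuous fun x : K L2 => px x a := by
  set h := Finsupp.linearCombination ℝ fs a with hh
  have h1 : Continuous fun x : K L2 => ‖Lx x a‖ := by
    have : (fun x : K L2 => ‖Lx x a‖) = fun x => √(‖h‖ ^ 2 - (x.1 h) ^ 2) := by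
      funext x
      rw [Lx_apply, ← hh, ← inner_vec, ← A_norm_sq (norm_vec x), Real.sqrt_sq (norm_nonneg _)]
    rw [this]
    exact (continuous_const.sub ((K_continuous_eval h).pow 2)).sqrt
  have h2 : Continuous fun x : K L2 => T cs (phi x) (Lx x a) := by
    unfold T
    refine continuous_tsum (u := fun k => ‖h‖ * (cs k * 2)) (fun k => ?_) (cs_summable.mul_left _)
      fun k x => ?_
    · have : (fun x : K L2 => cs k * |inner ℝ (Lx x a) (phi x k)|) =
          fun x => cs k * |inner ℝ h (fs k) - x.1 h * x.1 (fs k)| := by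
        funext x
        rw [Lx_apply, ← hh, phi, A_inner (norm_vec x), inner_vec, inner_vec]
      rw [this]
      exact (((continuous_const.sub ((K_continuous_eval h).mul (K_continuous_eval (fs k)))).abs).const_smul (cs k))
    · rw [norm_mul, Real.norm_of_nonneg (cs_pos k).le, Real.norm_eq_abs, abs_abs]
      calc cs k * |inner ℝ (Lx x a) (phi x k)| ≤ cs k * (‖Lx x a‖ * ‖phi x k‖) :=
            mul_le_mul_of_nonneg_left (abs_real_inner_le_norm _ _) (cs_pos k).le
        _ ≤ cs k * (‖h‖ * 2) := by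
            have := (cs_pos k).le
            gcongr
            · exact A_norm_le (norm_vec x) h
            · exact phi_norm_le x k
        _ = _ := by ring
  exact h1.add h2

lemma mux_continuous : Continuous mux := by
  refine Continuous.subtype_mk ?_ _
  exact continuous_pi fun v => px_continuous (incl v)

/-! ### The completion and the Hilbert space -/

/-- The canonical map `c₀₀ → X_μ`. -/
noncomputable def toX (μ : P) : C00 →ₗ[ℝ] X μ :=
  (UniformSpace.Completion.toComplₗᵢ (𝕜 := ℝ) (E := Pre (ext μ))).toLinearMap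

lemma toX_norm (μ : P) (a : C00) : ‖toX μ a‖ = ext μ a :=
  (UniformSpace.Completion.toComplₗᵢ (𝕜 := ℝ) (E := Pre (ext μ))).norm_map a

lemma toX_dense (μ : P) : DenseRange (toX μ) :=
  UniformSpace.Completion.denseRange_coe (α := Pre (ext μ))

lemma Lx_le (x : K L2) (a : C00) : ‖Lx x a‖ ≤ 1 * ‖toX (mux x) a‖ := by
  rw [toX_norm, ext_mux, px_apply, one_mul]
  linarith [T_nonneg cs_pos (z := phi x) (Lx x a)]

/-- The map from `X_{μ_x}` to the Hilbert space. -/
noncomputable def Jx (x : K L2) : X (mux x) →L[ℝ] L2 := (Lx x).extendOfNorm (toX (mux x))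

lemma Jx_toX (x : K L2) (a : C00) : Jx x (toX (mux x) a) = Lx x a :=
  LinearMap.extendOfNorm_eq (toX_dense _) ⟨1, Lx_le x⟩ a

lemma Jx_norm (x : K L2) (ξ : X (mux x)) : ‖ξ‖ = ‖Jx x ξ‖ + T cs (phi x) (Jx x ξ) := by
  refine (toX_dense (mux x)).induction_on (p := fun ξ => ‖ξ‖ = ‖Jx x ξ‖ + T cs (phi x) (Jx x ξ)) ξ
    ?_ ?_
  · exact isClosed_eq continuous_norm ((Jx x).continuous.norm.add
      ((T_continuous cs_pos (phi_summable x)).comp (Jx x).continuous))
  · intro a
    rw [Jx_toX, toX_norm, ext_mux, px_apply]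

/-- The Hilbert space `H_x`. -/
noncomputable def Hx (x : K L2) : Submodule ℝ L2 :=
  (LinearMap.range (A (vec x) : L2 →ₗ[ℝ] L2)).topologicalClosure

lemma span_fs_dense (h : L2) {ε : ℝ} (hε : 0 < ε) :
    ∃ g ∈ Submodule.span ℝ (Set.range fs), ‖h - g‖ < ε := by
  have h1 : (Submodule.span ℝ (Set.range fs)).topologicalClosure = ⊤ := by
    rw [Submodule.topologicalClosure_eq_top_iff, Submodule.eq_bot_iff]
    intro y hy
    by_contra hne
    obtain ⟨k, hk⟩ := (fs_oc y hne).exists
    exact hk ((Submodule.mem_orthogonal _ y).mp hy _ (Submodule.subset_span ⟨k, rfl⟩))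
  have h2 : h ∈ closure ((Submodule.span ℝ (Set.range fs) : Submodule ℝ L2) : Set L2) := by
    rw [← Submodule.topologicalClosure_coe, h1]; exact Submodule.mem_top
  rw [Metric.mem_closure_iff] at h2
  obtain ⟨g, hg, hd⟩ := h2 ε hε
  exact ⟨g, hg, by rwa [dist_eq_norm] at hd⟩

lemma Hx_approx (x : K L2) {y : L2} (hy : y ∈ Hx x) {ε : ℝ} (hε : 0 < ε) :
    ∃ g ∈ Submodule.span ℝ (Set.range fs), ‖y - A (vec x) g‖ < ε := by
  have h2 : y ∈ closure ((LinearMap.range (A (vec x) : L2 →ₗ[ℝ] L2) : Submodule ℝ L2) : Set L2) := hy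
  rw [Metric.mem_closure_iff] at h2
  obtain ⟨_, ⟨h, rfl⟩, hd⟩ := h2 (ε / 2) (half_pos hε)
  obtain ⟨g, hg, hgh⟩ := span_fs_dense h (half_pos hε)
  refine ⟨g, hg, ?_⟩
  rw [dist_eq_norm] at hd
  have h3 : y - A (vec x) g = (y - A (vec x) h) + A (vec x) (h - g) := by rw [map_sub]; abel
  rw [h3]
  calc _ ≤ ‖y - A (vec x) h‖ + ‖A (vec x) (h - g)‖ := norm_add_le _ _
    _ < ε / 2 + ε / 2 := add_lt_add hd (lt_of_le_of_lt (A_norm_le (norm_vec x) _) hgh)
    _ = ε := by ring

lemma phi_mem_Hx (x : K L2) (k : ℕ) : phi x k ∈ Hx x :=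
  Submodule.le_topologicalClosure _ (LinearMap.mem_range.mpr ⟨fs k, rfl⟩)

lemma A_ne_zero (x : K L2) {y : L2} (hy : y ∈ Hx x) (hne : y ≠ 0) : A (vec x) y ≠ 0 := by
  intro h0
  have h1 : ∀ h ∈ Hx x, inner ℝ h y = 0 := by
    intro h hh
    have hcl : IsClosed {h : L2 | inner ℝ h y = 0} := isClosed_eq (by fun_prop) continuous_const
    have : ((Hx x : Submodule ℝ L2) : Set L2) ⊆ {h : L2 | inner ℝ h y = 0} := by
      rw [Hx, Submodule.topologicalClosure_coe]
      refine closure_minimal ?_ hcl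
      rintro _ ⟨g, rfl⟩
      change inner ℝ (A (vec x) g) y = 0
      rw [A_symm, h0, inner_zero_right]
    exact this hh
  exact hne (inner_self_eq_zero.mp (h1 y hy))

lemma Hx_oc (x : K L2) {y : L2} (hy : y ∈ Hx x) (hne : y ≠ 0) :
    ∀ᶠ k in atTop, inner ℝ (phi x k) y ≠ 0 := by
  filter_upwards [fs_oc _ (A_ne_zero x hy hne)] with k hk
  rw [phi, A_symm]; exact hk

lemma A_eq_self {u g : L2} (h : inner ℝ u g = 0) : A u g = g := by
  rw [A_apply, h, mul_zero, zero_smul, sub_zero]

lemma Hx_orth (x : K L2) (ψ : L2) : ∃ w ∈ Hx x, w ≠ 0 ∧ inner ℝ w ψ = 0 := by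
  have : FiniteDimensional ℝ (Submodule.span ℝ {A (vec x) ψ, vec x}) :=
    FiniteDimensional.span_of_finite ℝ (Set.toFinite _)
  obtain ⟨g, hg0, hg⟩ := L2_orth (Submodule.span ℝ {A (vec x) ψ, vec x})
  have h1 : inner ℝ g (A (vec x) ψ) = 0 := hg _ (Submodule.subset_span (by simp))
  have h2 : inner ℝ g (vec x) = 0 := hg _ (Submodule.subset_span (by simp))
  have h3 : A (vec x) g = g := A_eq_self (by rw [real_inner_comm]; exact h2)
  refine ⟨g, ?_, hg0, ?_⟩
  · rw [← h3]
    exact Submodule.le_topologicalClosure _ (LinearMap.mem_range.mpr ⟨g, rfl⟩)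
  · rw [← h3, A_symm]; exact h1

/-- `X_{μ_x}` is infinite-dimensional. -/
lemma mux_inf (x : K L2) : InfDim (mux x) := by
  intro hfd
  set F : Submodule ℝ L2 := LinearMap.range (Jx x : X (mux x) →ₗ[ℝ] L2) with hF
  have hFfd : FiniteDimensional ℝ F := inferInstance
  obtain ⟨g, hg0, hg⟩ := L2_orth (F ⊔ Submodule.span ℝ {vec x})
  have h2 : inner ℝ g (vec x) = 0 :=
    hg _ ((le_sup_right : _ ≤ F ⊔ Submodule.span ℝ {vec x}) (Submodule.mem_span_singleton_self _))
  have h3 : A (vec x) g = g := A_eq_self (by rw [real_inner_comm]; exact h2)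
  obtain ⟨k, hk⟩ := (fs_oc g hg0).exists
  apply hk
  have h4 : phi x k ∈ F := by
    rw [← Lx_single, ← Jx_toX]
    exact LinearMap.mem_range_self _ _
  have h5 := hg _ ((le_sup_left : F ≤ _) h4)
  rw [phi, ← A_symm, h3, real_inner_comm] at h5
  exact h5

/-- the code of `μ_x` in `𝒫_∞` -/
noncomputable def muInf (x : K L2) : PInf := ⟨mux x, mux_inf x⟩

lemma muInf_continuous : Continuous muInf := Continuous.subtype_mk mux_continuous _

/-- **Main theorem**: there is no continuous isometric recoding of `𝒫_∞` in `ℬ`. -/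
theorem main (Φ : PInf → BInf) (hΦ : Continuous Φ)
    (hiso : ∀ μ : PInf, Isometric (Φ μ).code μ.code) : False := by
  classical
  let Ti : ∀ x : K L2, X (Φ (muInf x)).1 ≃ₗᵢ[ℝ] X (mux x) := fun x => Classical.choice (hiso (muInf x))
  set ν : K L2 → P := fun x => (Φ (muInf x)).1 with hν
  have hνc : Continuous ν := continuous_subtype_val.comp (hΦ.comp muInf_continuous)
  have hνn : ∀ x a, ext (ν x) a = 0 → a = 0 := fun x => (Φ (muInf x)).2.2
  let W : K L2 → C00 →ₗ[ℝ] L2 := fun x =>
    (Jx x : X (mux x) →ₗ[ℝ] L2) ∘ₗ ((Ti x).toLinearEquiv : X (ν x) →ₗ[ℝ] X (mux x)) ∘ₗ toX (ν x)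
  have hW : ∀ x v, W x v = Jx x (Ti x (toX (ν x) v)) := fun x v => rfl
  have hWn : ∀ x v, ‖W x v‖ + T cs (phi x) (W x v) = ext (ν x) v := by
    intro x v
    rw [hW, ← Jx_norm, (Ti x).norm_map]
    exact toX_norm _ _
  -- the closed range
  have hrange : ∀ x, (LinearMap.range (W x)).topologicalClosure = Hx x := by
    intro x
    apply le_antisymm
    · refine Submodule.topologicalClosure_minimal _ ?_ (Submodule.isClosed_topologicalClosure _)
      rintro _ ⟨v, rfl⟩
      rw [hW]
      refine (toX_dense (mux x)).induction_on (p := fun ξ => Jx x ξ ∈ Hx x)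
        (Ti x (toX (ν x) v)) ?_ ?_
      · exact (Submodule.isClosed_topologicalClosure _).preimage (Jx x).continuous
      · intro a
        rw [Jx_toX, Lx_apply]
        exact Submodule.le_topologicalClosure _ (LinearMap.mem_range.mpr ⟨_, rfl⟩)
    · have hJ : ∀ ξ, Jx x ξ ∈ (LinearMap.range (W x)).topologicalClosure := by
        intro ξ
        obtain ⟨η, rfl⟩ := (Ti x).surjective ξ
        refine (toX_dense (ν x)).induction_on
          (p := fun η => Jx x (Ti x η) ∈ (LinearMap.range (W x)).topologicalClosure) η ?_ ?_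
        · exact (Submodule.isClosed_topologicalClosure _).preimage
            ((Jx x).continuous.comp (Ti x).continuous)
        · intro v
          exact Submodule.le_topologicalClosure _ (LinearMap.mem_range.mpr ⟨v, rfl⟩)
      refine Submodule.topologicalClosure_minimal _ ?_ (Submodule.isClosed_topologicalClosure _)
      rintro _ ⟨h, rfl⟩
      have h1 : A (vec x) h ∈ closure (((LinearMap.range (W x)).topologicalClosure :
          Submodule ℝ L2) : Set L2) := by
        rw [Metric.mem_closure_iff]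
        intro ε hε
        obtain ⟨g, hg, hgh⟩ := span_fs_dense h hε
        rw [← Finsupp.range_linearCombination] at hg
        obtain ⟨a, rfl⟩ := hg
        refine ⟨Lx x a, ?_, ?_⟩
        · rw [← Jx_toX]; exact hJ _
        · rw [dist_eq_norm, Lx_apply, ← map_sub]
          exact lt_of_le_of_lt (A_norm_le (norm_vec x) _) hgh
      rw [(Submodule.isClosed_topologicalClosure _).closure_eq] at h1
      exact h1
  -- rigidity along ultrafilters
  have hrig : ∀ (x : K L2) (U : Ultrafilter (K L2)), (U : Filter (K L2)) ≤ 𝓝 x →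
      ∃ σ : ℝ, (σ = 1 ∨ σ = -1) ∧
      (∀ v k, Tendsto (fun y => inner ℝ (W y v) (phi y k)) U (𝓝 (σ * inner ℝ (W x v) (phi x k)))) ∧
      (∀ v, Tendsto (fun y => ‖W y v‖) U (𝓝 ‖W x v‖)) := by
    intro x U hU
    refine rigidity U cs_pos cs_summable W phi (W x) (phi x) phi_norm_le ?_ ?_ ?_ ?_ ?_ ?_
    · intro j k
      have : Continuous fun y : K L2 => inner ℝ (phi y j) (phi y k) := by
        have e : (fun y : K L2 => inner ℝ (phi y j) (phi y k)) =
            fun y => inner ℝ (fs j) (fs k) - y.1 (fs j) * y.1 (fs k) := by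
          funext y
          rw [phi, phi, A_inner (norm_vec y), inner_vec, inner_vec]
        rw [e]
        exact continuous_const.sub ((K_continuous_eval _).mul (K_continuous_eval _))
      exact (this.tendsto x).mono_left hU
    · intro v
      simp_rw [hWn]
      exact ((((continuous_ext_apply v).comp hνc).tendsto x)).mono_left hU
    · intro k
      rw [hrange]; exact phi_mem_Hx x k
    · exact fs_lac (norm_vec x)
    · intro y hy hne
      rw [hrange] at hy
      exact Hx_oc x hy hne
    · intro ψ _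
      rw [hrange]; exact Hx_orth x ψ
  -- the section
  set e : C00 := Finsupp.single 0 1 with he
  have he0 : e ≠ 0 := by simp [he]
  have hw0 : ∀ x, W x e ≠ 0 := by
    intro x h0
    have := hWn x e
    rw [h0, norm_zero, T_zero, add_zero] at this
    exact he0 (hνn x e this.symm)
  have hwH : ∀ x, W x e ∈ Hx x := by
    intro x
    rw [← hrange]
    exact Submodule.le_topologicalClosure _ (LinearMap.mem_range_self _ _)
  have hprod : ∀ i j, Continuous fun x => inner ℝ (W x e) (phi x i) * inner ℝ (W x e) (phi x j) := by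
    intro i j
    rw [continuous_iff_ultrafilter]
    intro x U hU
    obtain ⟨σ, hσ, h1, -⟩ := hrig x U hU
    have h2 := (h1 e i).mul (h1 e j)
    have h3 : σ * inner ℝ (W x e) (phi x i) * (σ * inner ℝ (W x e) (phi x j)) =
        inner ℝ (W x e) (phi x i) * inner ℝ (W x e) (phi x j) := by
      rcases hσ with h | h <;> rw [h] <;> ring
    rw [h3] at h2
    exact h2
  have hnorm : Continuous fun x => ‖W x e‖ := by
    rw [continuous_iff_ultrafilter]
    intro x U hU
    obtain ⟨σ, hσ, -, h1⟩ := hrig x U hU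
    exact h1 e
  have hexj : ∀ x, ∃ j, inner ℝ (W x e) (phi x j) ≠ 0 := by
    intro x
    obtain ⟨j, hj⟩ := (Hx_oc x (hwH x) (hw0 x)).exists
    exact ⟨j, by rw [real_inner_comm]; exact hj⟩
  obtain ⟨β, hβ0, hβ⟩ := sign_lift (fun j x => inner ℝ (W x e) (phi x j)) hprod hexj K0 Kc
    Kc_continuous Kc_zero Kc_one
  have hβabs : Continuous fun x => |β x| := by
    rw [continuous_iff_continuousAt]
    intro x0
    obtain ⟨j, hj⟩ := hexj x0
    have h1 : Continuous fun x => |inner ℝ (W x e) (phi x j)| := by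
      have : (fun x => |inner ℝ (W x e) (phi x j)|) =
          fun x => √(inner ℝ (W x e) (phi x j) * inner ℝ (W x e) (phi x j)) := by
        funext x
        rw [Real.sqrt_mul_self_eq_abs]
      rw [this]
      exact (hprod j j).sqrt
    have h2 : ContinuousAt (fun x => |β x * inner ℝ (W x e) (phi x j)| /
        |inner ℝ (W x e) (phi x j)|) x0 :=
      ((hβ j).abs.continuousAt).div h1.continuousAt (abs_ne_zero.mpr hj)
    refine h2.congr ?_
    filter_upwards [h1.continuousAt.eventually_ne (abs_ne_zero.mpr hj)] with x hx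
    rw [abs_mul, mul_div_assoc, div_self hx, mul_one]
  refine no_section fs (fun x => β x • W x e) (fun x => smul_ne_zero (hβ0 x) (hw0 x)) ?_ ?_ ?_
  · intro x ε hε
    exact Hx_approx x ((Hx x).smul_mem _ (hwH x)) hε
  · intro k
    simp_rw [inner_smul_left]
    exact hβ k
  · simp_rw [norm_smul, Real.norm_eq_abs]
    exact hβabs.mul hnorm

end Pool.Agent.Lib_helper47.R
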