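import Mathlib

/-!
# Matching of overcomplete systems with the same Gram matrix and the same masses of lines
-/

namespace Pool.Agent.Lib_helper47.R

open Filter Set
open scoped Topology

variable {H : Type*} [NormedAddCommGroup H] [InnerProductSpace ℝ H]

/-- Lacunary sums: if the masses decrease fast from `J` on, a relation with coefficients in
`{-1,0,1}` whose terms vanish before `J` is trivial. -/
lemma lacunary {m : ℕ → ℝ} (hm : Summable m) (hm0 : ∀ k, 0 ≤ m k) {J : ℕ}
    (hpos : ∀ k, J ≤ k → 0 < m k) (hJ : ∀ k, J ≤ k → m (k + 1) ≤ m k / 4)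
    {α : ℕ → ℝ} (hα : ∀ k, α k = 0 ∨ α k = 1 ∨ α k = -1)
    (hlow : ∀ k, k < J → α k * m k = 0) (hsum : ∑' k, α k * m k = 0) :
    ∀ k, J ≤ k → α k = 0 := by
  have hgeo : ∀ k, J ≤ k → ∀ i : ℕ, m (k + i) ≤ m k * (1 / 4) ^ i := by
    intro k hk i
    induction i with
    | zero => simp
    | succ i ih =>
      calc m (k + (i + 1)) = m ((k + i) + 1) := by ring_nf
        _ ≤ m (k + i) / 4 := hJ _ (by omega)
        _ ≤ (m k * (1 / 4) ^ i) / 4 := by gcongr
        _ = m k * (1 / 4) ^ (i + 1) := by rw [pow_succ]; ring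
  have hαabs : ∀ k, |α k| ≤ 1 := by
    intro k
    rcases hα k with h | h | h <;> rw [h] <;> simp
  have hs : Summable fun k => α k * m k := by
    refine Summable.of_norm_bounded hm fun k => ?_
    rw [Real.norm_eq_abs, abs_mul, abs_of_nonneg (hm0 k)]
    calc |α k| * m k ≤ 1 * m k := mul_le_mul_of_nonneg_right (hαabs k) (hm0 k)
      _ = m k := one_mul _
  by_contra hcon
  push Not at hcon
  have hex : ∃ k, J ≤ k ∧ α k ≠ 0 := hcon
  classical
  set k0 := Nat.find hex with hk0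
  obtain ⟨hk0J, hk0α⟩ := Nat.find_spec hex
  have hmin : ∀ k, k < k0 → α k * m k = 0 := by
    intro k hk
    by_cases hkJ : k < J
    · exact hlow k hkJ
    · have := Nat.find_min hex hk
      push Not at this
      rw [this (not_lt.mp hkJ), zero_mul]
  have h1 : ∑' k, α k * m k = ∑ k ∈ Finset.range (k0 + 1), α k * m k +
      ∑' i, α (i + (k0 + 1)) * m (i + (k0 + 1)) := (hs.sum_add_tsum_nat_add (k0 + 1)).symm
  have h2 : ∑ k ∈ Finset.range (k0 + 1), α k * m k = α k0 * m k0 := by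
    rw [Finset.sum_range_succ, Finset.sum_eq_zero (fun k hk => hmin k (Finset.mem_range.mp hk)),
      zero_add]
  have h3 : |∑' i, α (i + (k0 + 1)) * m (i + (k0 + 1))| ≤ m k0 / 3 := by
    have hg : HasSum (fun i : ℕ => m k0 * (1 / 4) * (1 / 4 : ℝ) ^ i) (m k0 * (1 / 4) * (1 - 1 / 4)⁻¹) :=
      (hasSum_geometric_of_lt_one (by norm_num) (by norm_num)).mul_left _
    have hb : ∀ i : ℕ, ‖α (i + (k0 + 1)) * m (i + (k0 + 1))‖ ≤ m k0 * (1 / 4) * (1 / 4 : ℝ) ^ i := by
      intro i
      rw [Real.norm_eq_abs, abs_mul, abs_of_nonneg (hm0 _)]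
      calc |α (i + (k0 + 1))| * m (i + (k0 + 1)) ≤ 1 * m (i + (k0 + 1)) :=
            mul_le_mul_of_nonneg_right (hαabs _) (hm0 _)
        _ = m (k0 + (i + 1)) := by rw [one_mul]; ring_nf
        _ ≤ m k0 * (1 / 4) ^ (i + 1) := hgeo k0 hk0J (i + 1)
        _ = _ := by rw [pow_succ]; ring
    have := tsum_of_norm_bounded hg hb
    rw [Real.norm_eq_abs] at this
    calc _ ≤ m k0 * (1 / 4) * (1 - 1 / 4)⁻¹ := this
      _ = m k0 / 3 := by norm_num; ring
  rw [hsum, h2] at h1
  have h4 : |α k0 * m k0| = m k0 := by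
    rw [abs_mul, abs_of_nonneg (hm0 _)]
    rcases hα k0 with h | h | h
    · exact absurd h hk0α
    · rw [h]; simp
    · rw [h]; simp
  have h5 : |α k0 * m k0| ≤ m k0 / 3 := by
    have : α k0 * m k0 = -∑' i, α (i + (k0 + 1)) * m (i + (k0 + 1)) := by linarith
    rw [this, abs_neg]; exact h3
  have h6 := hpos k0 hk0J
  linarith

open Classical in
lemma matching {S : Submodule ℝ H} {m : ℕ → ℝ}
    {z g : ℕ → H} (hz : ∀ k, z k ∈ S) (hg : ∀ k, g k ∈ S)
    (hgram : ∀ i j, inner ℝ (g i) (g j) = inner ℝ (z i) (z j))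
    (hm : Summable m) (hm0 : ∀ k, 0 ≤ m k) (hmz : ∀ k, z k = 0 → m k = 0)
    (hlac : ∀ᶠ k in atTop, 0 < m k ∧ m (k + 1) ≤ m k / 4)
    (hmass : ∀ ψ ∈ S, ψ ≠ 0 → ∑' k, (if z k ∈ Submodule.span ℝ {ψ} then m k else 0) =
      ∑' k, (if g k ∈ Submodule.span ℝ {ψ} then m k else 0))
    (hoc : ∀ y ∈ S, y ≠ 0 → ∀ᶠ k in atTop, inner ℝ (z k) y ≠ 0)
    (hw : ∀ ψ ∈ S, ∃ w ∈ S, w ≠ 0 ∧ inner ℝ w ψ = 0) :
    ∃ σ : ℝ, (σ = 1 ∨ σ = -1) ∧ ∀ k, g k = σ • z k := by
  have hnorm : ∀ k, ‖g k‖ = ‖z k‖ := by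
    intro k
    have h1 : ‖g k‖ ^ 2 = ‖z k‖ ^ 2 := by
      rw [← real_inner_self_eq_norm_sq, ← real_inner_self_eq_norm_sq]
      exact hgram k k
    exact (sq_eq_sq₀ (norm_nonneg _) (norm_nonneg _)).mp h1
  have hmg : ∀ k, g k = 0 → m k = 0 := fun k hk => hmz k (by
    rw [← norm_eq_zero, ← hnorm k, hk, norm_zero])
  -- Step 1
  have s1 : ∀ ψ ∈ S, ∀ᶠ j in atTop, z j ∉ Submodule.span ℝ {ψ} := by
    intro ψ hψ
    obtain ⟨w, hwS, hw0, hwψ⟩ := hw ψ hψ
    filter_upwards [hoc w hwS hw0] with j hj hmem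
    obtain ⟨r, hr⟩ := Submodule.mem_span_singleton.mp hmem
    apply hj
    rw [← hr, inner_smul_left, real_inner_comm, hwψ, mul_zero]
  have hgne : ∀ᶠ j in atTop, g j ≠ 0 := by
    filter_upwards [hlac] with j hj h0
    have := hmg j h0
    linarith [hj.1]
  -- Step 2
  have s2 : ∀ ψ : H, ∀ᶠ j in atTop, g j ∉ Submodule.span ℝ {ψ} := by
    intro ψ
    by_contra hcon
    rw [Filter.not_eventually] at hcon
    simp only [not_not] at hcon
    obtain ⟨j0, hj0, hj0ne⟩ := (hcon.and_eventually hgne).exists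
    have hz0ne : z j0 ≠ 0 := by
      rw [← norm_ne_zero_iff, ← hnorm j0]; exact norm_ne_zero_iff.mpr hj0ne
    obtain ⟨j, ⟨hj, hjne⟩, hjz⟩ :=
      ((hcon.and_eventually hgne).and_eventually (s1 (z j0) (hz j0))).exists
    obtain ⟨r0, hr0⟩ := Submodule.mem_span_singleton.mp hj0
    obtain ⟨r, hr⟩ := Submodule.mem_span_singleton.mp hj
    have hr0' : r0 ≠ 0 := by rintro rfl; rw [zero_smul] at hr0; exact hj0ne hr0.symm
    have hzjne : z j ≠ 0 := by
      rw [← norm_ne_zero_iff, ← hnorm j]; exact norm_ne_zero_iff.mpr hjne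
    have h1 : |inner ℝ (z j0) (z j)| = ‖z j0‖ * ‖z j‖ := by
      rw [← hgram, ← hnorm, ← hnorm, ← hr0, ← hr, inner_smul_left, inner_smul_right,
        real_inner_self_eq_norm_sq, norm_smul, norm_smul, abs_mul, abs_mul, Real.norm_eq_abs,
        Real.norm_eq_abs, abs_of_nonneg (by positivity : (0:ℝ) ≤ ‖ψ‖ ^ 2)]
      simp only [conj_trivial]
      ring
    have h2 := (norm_inner_eq_norm_iff (𝕜 := ℝ) hz0ne hzjne).mp (by rw [Real.norm_eq_abs]; exact h1)
    obtain ⟨r', hr'0, hr'⟩ := h2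
    apply hjz
    rw [hr']
    exact Submodule.smul_mem _ _ (Submodule.mem_span_singleton_self _)
  -- Step 3
  obtain ⟨J, hJ⟩ := eventually_atTop.mp hlac
  have s3 : ∀ᶠ j in atTop, g j = z j ∨ g j = -z j := by
    have hfin1 : ∀ᶠ j in atTop, ∀ k ∈ Finset.range J, g j ∉ Submodule.span ℝ {z k} := by
      rw [Filter.eventually_all_finset]
      intro k _; exact s2 _
    have hfin2 : ∀ᶠ j in atTop, ∀ k ∈ Finset.range J, g j ∉ Submodule.span ℝ {g k} := by
      rw [Filter.eventually_all_finset]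
      intro k _; exact s2 _
    filter_upwards [hfin1, hfin2, hgne, eventually_ge_atTop J] with j h1 h2 h3 h4
    have hms := hmass (g j) (hg j) h3
    set α : ℕ → ℝ := fun k => (if z k ∈ Submodule.span ℝ {g j} then 1 else 0) -
      (if g k ∈ Submodule.span ℝ {g j} then 1 else 0) with hα
    have sA : Summable fun k => (if z k ∈ Submodule.span ℝ {g j} then m k else 0) := by
      refine Summable.of_norm_bounded hm fun k => ?_
      split_ifs
      · rw [Real.norm_of_nonneg (hm0 k)]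
      · simpa using hm0 k
    have sB : Summable fun k => (if g k ∈ Submodule.span ℝ {g j} then m k else 0) := by
      refine Summable.of_norm_bounded hm fun k => ?_
      split_ifs
      · rw [Real.norm_of_nonneg (hm0 k)]
      · simpa using hm0 k
    have hαs : ∑' k, α k * m k = 0 := by
      have : ∀ k, α k * m k = (if z k ∈ Submodule.span ℝ {g j} then m k else 0) -
          (if g k ∈ Submodule.span ℝ {g j} then m k else 0) := by
        intro k
        simp only [hα, sub_mul, ite_mul, one_mul, zero_mul]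
      simp_rw [this]
      rw [sA.tsum_sub sB, hms, sub_self]
    have hnm : ∀ v : H, g j ∉ Submodule.span ℝ {v} → v ∈ Submodule.span ℝ {g j} → v = 0 := by
      intro v hv hv2
      obtain ⟨r, hr⟩ := Submodule.mem_span_singleton.mp hv2
      by_contra hv0
      have hr0 : r ≠ 0 := by rintro rfl; rw [zero_smul] at hr; exact hv0 hr.symm
      apply hv
      rw [← hr, Submodule.mem_span_singleton]
      exact ⟨r⁻¹, by rw [smul_smul, inv_mul_cancel₀ hr0, one_smul]⟩
    have hlow : ∀ k, k < J → α k * m k = 0 := by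
      intro k hk
      have c1 : (if z k ∈ Submodule.span ℝ {g j} then (1 : ℝ) else 0) * m k = 0 := by
        split_ifs with hmem
        · rw [hmz k (hnm _ (h1 k (Finset.mem_range.mpr hk)) hmem), mul_zero]
        · rw [zero_mul]
      have c2 : (if g k ∈ Submodule.span ℝ {g j} then (1 : ℝ) else 0) * m k = 0 := by
        split_ifs with hmem
        · rw [hmg k (hnm _ (h2 k (Finset.mem_range.mpr hk)) hmem), mul_zero]
        · rw [zero_mul]
      simp only [hα, sub_mul, c1, c2, sub_zero]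
    have hαv : ∀ k, α k = 0 ∨ α k = 1 ∨ α k = -1 := by
      intro k
      simp only [hα]
      split_ifs <;> norm_num
    have hα0 := lacunary hm hm0 (fun k hk => (hJ k hk).1) (fun k hk => (hJ k hk).2) hαv hlow hαs j h4
    have hzj : z j ∈ Submodule.span ℝ {g j} := by
      by_contra hnot
      simp only [hα, hnot, Submodule.mem_span_singleton_self, if_true, if_false] at hα0
      norm_num at hα0
    obtain ⟨r, hr⟩ := Submodule.mem_span_singleton.mp hzj
    have hgn : ‖g j‖ ≠ 0 := norm_ne_zero_iff.mpr h3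
    have hr1 : |r| = 1 := by
      have := congrArg norm hr
      rw [norm_smul, ← hnorm j, Real.norm_eq_abs] at this
      have h7 : (|r| - 1) * ‖g j‖ = 0 := by linarith
      rcases mul_eq_zero.mp h7 with h8 | h8
      · linarith
      · exact absurd h8 hgn
    rcases eq_or_eq_neg_of_abs_eq hr1 with h9 | h9
    · left; rw [← hr, h9, one_smul]
    · right; rw [← hr, h9, neg_one_smul, neg_neg]
  -- Step 4
  obtain ⟨j0, hj0, hj0ne⟩ := (s3.and hgne).exists
  have hz0ne : z j0 ≠ 0 := by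
    rw [← norm_ne_zero_iff, ← hnorm j0]; exact norm_ne_zero_iff.mpr hj0ne
  obtain ⟨σ, hσ, hσj0⟩ : ∃ σ : ℝ, (σ = 1 ∨ σ = -1) ∧ g j0 = σ • z j0 := by
    rcases hj0 with h | h
    · exact ⟨1, Or.inl rfl, by rw [h, one_smul]⟩
    · exact ⟨-1, Or.inr rfl, by rw [h, neg_one_smul]⟩
  have hσσ : σ * σ = 1 := by rcases hσ with h | h <;> rw [h] <;> norm_num
  have s4 : ∀ᶠ k in atTop, g k = σ • z k := by
    filter_upwards [s3, hoc (z j0) (hz j0) hz0ne] with k hk hk2
    obtain ⟨τ, hτ, hτk⟩ : ∃ τ : ℝ, (τ = 1 ∨ τ = -1) ∧ g k = τ • z k := by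
      rcases hk with h | h
      · exact ⟨1, Or.inl rfl, by rw [h, one_smul]⟩
      · exact ⟨-1, Or.inr rfl, by rw [h, neg_one_smul]⟩
    have h1 := hgram k j0
    rw [hτk, hσj0, inner_smul_left, inner_smul_right] at h1
    simp only [conj_trivial] at h1
    have h2 : τ * σ = 1 := by
      have h3 : (τ * σ - 1) * inner ℝ (z k) (z j0) = 0 := by linarith
      rcases mul_eq_zero.mp h3 with h4 | h4
      · linarith
      · exact absurd h4 hk2
    have : τ = σ := by
      rcases hτ with h | h <;> rcases hσ with h' | h' <;> rw [h, h'] at h2 <;> rw [h, h'] <;>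
        norm_num at h2
    rw [hτk, this]
  -- Step 5
  refine ⟨σ, hσ, fun i => ?_⟩
  by_contra hne
  have hy0 : σ • g i - z i ≠ 0 := by
    intro h0
    apply hne
    rw [sub_eq_zero] at h0
    rw [← h0, smul_smul, hσσ, one_smul]
  obtain ⟨k, hk1, hk2⟩ := (s4.and (hoc _ (S.sub_mem (S.smul_mem σ (hg i)) (hz i)) hy0)).exists
  apply hk2
  rw [inner_sub_right, inner_smul_right]
  have h1 := hgram k i
  rw [hk1, inner_smul_left] at h1
  simp only [conj_trivial] at h1
  linarith

end Pool.Agent.Lib_helper47.R
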