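import Pool.Agent.Lib_helper47.RBrouwer

/-!
# A continuous field over the weak-* unit ball without nonvanishing sections
-/

namespace Pool.Agent.Lib_helper47.R

open Filter Set
open scoped Topology

variable {H : Type*} [NormedAddCommGroup H] [InnerProductSpace ℝ H]

/-- `A u h = h - κ ⟨u,h⟩ u` with `κ = 1 / (1 + √(1-‖u‖²))`, so that
`⟨A u g, A u h⟩ = ⟨g,h⟩ - ⟨u,g⟩⟨u,h⟩`. -/
noncomputable def A (u : H) : H →L[ℝ] H :=
  ContinuousLinearMap.id ℝ H - (1 / (1 + √(1 - ‖u‖ ^ 2))) • ((innerSL ℝ u).smulRight u)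

lemma A_apply (u h : H) : A u h = h - ((1 / (1 + √(1 - ‖u‖ ^ 2))) * inner ℝ u h) • u := by
  simp [A, smul_smul]

lemma A_symm (u g h : H) : inner ℝ (A u g) h = inner ℝ g (A u h) := by
  rw [A_apply, A_apply, inner_sub_left, inner_sub_right, inner_smul_left, inner_smul_right,
    real_inner_comm g u]
  simp only [conj_trivial]
  ring

lemma A_inner {u : H} (hu : ‖u‖ ≤ 1) (g h : H) :
    inner ℝ (A u g) (A u h) = inner ℝ g h - inner ℝ u g * inner ℝ u h := by
  have hu2 : 0 ≤ 1 - ‖u‖ ^ 2 := by nlinarith [norm_nonneg u]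
  set s := √(1 - ‖u‖ ^ 2) with hs
  have hs2 : s ^ 2 = 1 - ‖u‖ ^ 2 := Real.sq_sqrt hu2
  have hs0 : 0 ≤ s := Real.sqrt_nonneg _
  rw [A_apply, A_apply, ← hs, inner_sub_left, inner_sub_right, inner_sub_right, inner_smul_left,
    inner_smul_right, inner_smul_right, inner_smul_left, real_inner_self_eq_norm_sq,
    real_inner_comm g u]
  simp only [conj_trivial]
  have h1 : ‖u‖ ^ 2 = 1 - s ^ 2 := by linarith
  rw [h1]
  have h2 : (1 + s) ≠ 0 := by positivity
  field_simp
  ring

lemma A_norm_sq {u : H} (hu : ‖u‖ ≤ 1) (h : H) :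
    ‖A u h‖ ^ 2 = ‖h‖ ^ 2 - inner ℝ u h ^ 2 := by
  rw [← real_inner_self_eq_norm_sq, A_inner hu, real_inner_self_eq_norm_sq]; ring

lemma A_norm_le {u : H} (hu : ‖u‖ ≤ 1) (h : H) : ‖A u h‖ ≤ ‖h‖ := by
  have h1 := A_norm_sq hu h
  exact le_of_sq_le_sq' (by nlinarith [sq_nonneg (inner ℝ u h)]) (norm_nonneg _)
where
  le_of_sq_le_sq' {a b : ℝ} (h : a ^ 2 ≤ b ^ 2) (hb : 0 ≤ b) : a ≤ b :=
    (abs_le_of_sq_le_sq' h hb).2

variable (H) in
/-- The unit ball of the dual with the weak-* topology. -/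
def K : Type _ := {x : WeakDual ℝ H // ‖WeakDual.toStrongDual x‖ ≤ 1}

noncomputable instance : TopologicalSpace (K H) := inferInstanceAs (TopologicalSpace (Subtype _))

instance : CompactSpace (K H) := by
  have h : IsCompact {x : WeakDual ℝ H | ‖WeakDual.toStrongDual x‖ ≤ 1} := by
    have := WeakDual.isCompact_closedBall (𝕜 := ℝ) (E := H) 0 1
    convert this using 1
    ext x
    simp
  exact isCompact_iff_compactSpace.mp h

instance : T2Space (K H) := inferInstanceAs (T2Space (Subtype _))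

lemma K_continuous_eval (h : H) : Continuous fun x : K H => x.1 h :=
  (WeakDual.eval_continuous h).comp continuous_subtype_val

/-- The origin. -/
noncomputable def K0 : K H := ⟨0, by simp⟩

/-- The contraction of the ball. -/
noncomputable def Kc (p : unitInterval × K H) : K H :=
  ⟨(p.1 : ℝ) • p.2.1, by
    rw [map_smul, norm_smul, Real.norm_of_nonneg p.1.2.1]
    calc (p.1 : ℝ) * _ ≤ 1 * 1 := by
          gcongr
          · exact p.1.2.2
          · exact p.2.2
      _ = 1 := one_mul 1⟩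

lemma Kc_continuous : Continuous (Kc : unitInterval × K H → K H) := by
  refine Continuous.subtype_mk ?_ _
  exact (continuous_subtype_val.comp continuous_fst).smul
    (continuous_subtype_val.comp continuous_snd)

lemma Kc_zero (x : K H) : Kc (0, x) = K0 := by
  apply Subtype.ext
  simp [Kc, K0]

lemma Kc_one (x : K H) : Kc (1, x) = x := by
  apply Subtype.ext
  simp [Kc]

variable [CompleteSpace H]

/-- The vector representing a functional. -/
noncomputable def vec (x : K H) : H := (InnerProductSpace.toDual ℝ H).symm (WeakDual.toStrongDual x.1)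

lemma inner_vec (x : K H) (h : H) : inner ℝ (vec x) h = x.1 h := by
  rw [vec, InnerProductSpace.toDual_symm_apply]; rfl

lemma norm_vec (x : K H) : ‖vec x‖ ≤ 1 := by
  rw [vec, LinearIsometryEquiv.norm_map]; exact x.2

/-- The element of the ball given by a vector. -/
noncomputable def ofVec (u : H) (hu : ‖u‖ ≤ 1) : K H :=
  ⟨StrongDual.toWeakDual (InnerProductSpace.toDual ℝ H u), by
    have : WeakDual.toStrongDual (StrongDual.toWeakDual (InnerProductSpace.toDual ℝ H u)) =
      InnerProductSpace.toDual ℝ H u := rfl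
    rw [this, LinearIsometryEquiv.norm_map]; exact hu⟩

lemma ofVec_apply (u : H) (hu : ‖u‖ ≤ 1) (h : H) : (ofVec u hu).1 h = inner ℝ u h := rfl

/-- There is no continuous nonvanishing section of the field. -/
theorem no_section (f : ℕ → H) (w : K H → H) (hw0 : ∀ x, w x ≠ 0)
    (happ : ∀ x, ∀ ε > 0, ∃ h ∈ Submodule.span ℝ (Set.range f), ‖w x - A (vec x) h‖ < ε)
    (hwc : ∀ k, Continuous fun x => inner ℝ (w x) (A (vec x) (f k)))
    (hwn : Continuous fun x => ‖w x‖) : False := by
  classical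
  have hwc' : ∀ h ∈ Submodule.span ℝ (Set.range f),
      Continuous fun x => inner ℝ (w x) (A (vec x) h) := by
    intro h hh
    induction hh using Submodule.span_induction with
    | mem h hh => obtain ⟨k, rfl⟩ := hh; exact hwc k
    | zero => simp only [map_zero, inner_zero_right]; exact continuous_const
    | add a b _ _ ha hb => simp only [map_add, inner_add_right]; exact ha.add hb
    | smul r a _ ha => simp only [map_smul, inner_smul_right]; exact ha.const_smul r
  have hD : ∀ h ∈ Submodule.span ℝ (Set.range f),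
      Continuous fun x => ‖w x - A (vec x) h‖ ^ 2 := by
    intro h hh
    have : (fun x => ‖w x - A (vec x) h‖ ^ 2) =
        fun x => ‖w x‖ ^ 2 - 2 * inner ℝ (w x) (A (vec x) h) + (‖h‖ ^ 2 - (x.1 h) ^ 2) := by
      funext x
      rw [norm_sub_sq_real, A_norm_sq (norm_vec x), inner_vec]
    rw [this]
    exact ((hwn.pow 2).sub ((hwc' h hh).const_smul (2:ℝ))).add
      (continuous_const.sub ((K_continuous_eval h).pow 2))
  -- choose approximants
  have hch : ∀ x, ∃ h ∈ Submodule.span ℝ (Set.range f), ‖w x - A (vec x) h‖ ^ 2 < ‖w x‖ ^ 2 / 4 := by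
    intro x
    have hpos : 0 < ‖w x‖ := norm_pos_iff.mpr (hw0 x)
    obtain ⟨h, hh, hlt⟩ := happ x (‖w x‖ / 2) (by positivity)
    refine ⟨h, hh, ?_⟩
    calc ‖w x - A (vec x) h‖ ^ 2 < (‖w x‖ / 2) ^ 2 := by
          gcongr
      _ = ‖w x‖ ^ 2 / 4 := by ring
  choose a haS ha using hch
  obtain ⟨t, ht⟩ := isCompact_univ.elim_finite_subcover
    (fun i : K H => {x | ‖w x - A (vec x) (a i)‖ ^ 2 < ‖w x‖ ^ 2 / 4})
    (fun i => isOpen_lt (hD (a i) (haS i)) ((hwn.pow 2).div_const 4))
    (fun x _ => mem_iUnion.mpr ⟨x, ha x⟩)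
  set ρ : K H → K H → ℝ := fun i x => max 0 (‖w x‖ ^ 2 / 4 - ‖w x - A (vec x) (a i)‖ ^ 2) with hρ
  have hρc : ∀ i, Continuous (ρ i) := fun i =>
    continuous_const.max (((hwn.pow 2).div_const 4).sub (hD (a i) (haS i)))
  have hρ0 : ∀ i x, 0 ≤ ρ i x := fun i x => le_max_left _ _
  set F : K H → H := fun x => ∑ i ∈ t, ρ i x • a i with hF
  have hAF : ∀ x, A (vec x) (F x) ≠ 0 := by
    intro x h0
    have hpos : 0 < ‖w x‖ := norm_pos_iff.mpr (hw0 x)
    obtain ⟨i0, hi0⟩ := mem_iUnion.mp (ht (mem_univ x))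
    obtain ⟨hi0t, hi0x⟩ := mem_iUnion.mp hi0
    have hρi0 : 0 < ρ i0 x := by
      have : ‖w x - A (vec x) (a i0)‖ ^ 2 < ‖w x‖ ^ 2 / 4 := hi0x
      exact lt_max_of_lt_right (by linarith)
    have hsum : 0 < ∑ i ∈ t, ρ i x := Finset.sum_pos' (fun i _ => hρ0 i x) ⟨i0, hi0t, hρi0⟩
    have h1 : (∑ i ∈ t, ρ i x) • w x = ∑ i ∈ t, ρ i x • (w x - A (vec x) (a i)) := by
      have h2 : A (vec x) (F x) = ∑ i ∈ t, ρ i x • A (vec x) (a i) := by
        simp only [hF, map_sum, map_smul]
      simp_rw [smul_sub]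
      rw [Finset.sum_sub_distrib, ← h2, h0, sub_zero, Finset.sum_smul]
    have h3 : ‖(∑ i ∈ t, ρ i x) • w x‖ ≤ (∑ i ∈ t, ρ i x) * (‖w x‖ / 2) := by
      rw [h1, Finset.sum_mul]
      refine (norm_sum_le _ _).trans (Finset.sum_le_sum fun i _ => ?_)
      rw [norm_smul, Real.norm_of_nonneg (hρ0 i x)]
      rcases eq_or_lt_of_le (hρ0 i x) with h4 | h4
      · rw [← h4]; simp
      · have h5 : 0 < ‖w x‖ ^ 2 / 4 - ‖w x - A (vec x) (a i)‖ ^ 2 := by
          by_contra h6
          push Not at h6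
          have : ρ i x = 0 := max_eq_left h6
          linarith
        refine mul_le_mul_of_nonneg_left ?_ (hρ0 i x)
        have h7 : ‖w x - A (vec x) (a i)‖ ^ 2 ≤ (‖w x‖ / 2) ^ 2 := by
          calc _ ≤ ‖w x‖ ^ 2 / 4 := by linarith
            _ = _ := by ring
        exact (abs_le_of_sq_le_sq' h7 (by positivity)).2
    rw [norm_smul, Real.norm_of_nonneg hsum.le] at h3
    nlinarith
  -- restrict to a finite-dimensional subspace
  set E : Submodule ℝ H := Submodule.span ℝ ((t.image a : Finset H) : Set H) with hE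
  have hEfin : FiniteDimensional ℝ E := FiniteDimensional.span_finset ℝ _
  have haE : ∀ i ∈ t, a i ∈ E := fun i hi =>
    Submodule.subset_span (by simp only [Finset.coe_image]; exact ⟨i, hi, rfl⟩)
  have hFE : ∀ x, F x ∈ E := fun x => Submodule.sum_mem _ fun i hi => E.smul_mem _ (haE i hi)
  have hFc : Continuous F := continuous_finsetSum _ fun i _ => (hρc i).smul continuous_const
  -- the vector field
  set Φ : E → E := fun u => if hu : ‖(u : H)‖ ≤ 1 then ⟨F (ofVec (u : H) hu), hFE _⟩ else 0 with hΦ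
  have hΦc : ContinuousOn Φ (Metric.closedBall 0 1) := by
    rw [continuousOn_iff_continuous_domRestrict]
    have hmem : ∀ u : (Metric.closedBall (0 : E) 1), ‖((u : E) : H)‖ ≤ 1 := fun u =>
      mem_closedBall_zero_iff.mp u.2
    have e : (Metric.closedBall (0 : E) 1).domRestrict Φ =
        fun u : (Metric.closedBall (0 : E) 1) =>
        (⟨F (ofVec ((u : E) : H) (hmem u)), hFE _⟩ : E) := by
      funext u
      simp only [Set.domRestrict_apply, hΦ]
      rw [dif_pos (hmem u)]
    rw [e]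
    refine Continuous.subtype_mk (hFc.comp ?_) _
    refine Continuous.subtype_mk ?_ _
    refine WeakDual.continuous_of_continuous_eval fun h => ?_
    change Continuous fun u : (Metric.closedBall (0 : E) 1) => inner ℝ ((u : E) : H) h
    fun_prop
  have hkey : ∀ (u : E) (hu : ‖(u : H)‖ ≤ 1),
      0 < ‖Φ u‖ ^ 2 - inner ℝ (u : H) (Φ u : H) ^ 2 := by
    intro u hu
    have h1 : (Φ u : H) = F (ofVec (u : H) hu) := by simp only [hΦ]; rw [dif_pos hu]
    have h2 := A_norm_sq (norm_vec (ofVec (u : H) hu)) (F (ofVec (u : H) hu))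
    rw [inner_vec, ofVec_apply, ← h1] at h2
    have h3 : 0 < ‖A (vec (ofVec (u : H) hu)) (Φ u : H)‖ ^ 2 := by
      rw [h1]
      have := norm_pos_iff.mpr (hAF (ofVec (u : H) hu))
      positivity
    rw [h2] at h3
    exact h3
  obtain ⟨u, hu1, r, hr⟩ := exists_radial (E := E) hΦc (by
    intro u hu h0
    have := hkey u hu
    rw [h0] at this
    simp at this)
  have hu1' : ‖(u : H)‖ = 1 := hu1
  have h4 := hkey u hu1'.le
  rw [hr, norm_smul, hu1] at h4
  have h5 : inner ℝ (u : H) ((r • u : E) : H) = r := by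
    rw [Submodule.coe_smul, inner_smul_right, real_inner_self_eq_norm_sq, hu1']
    ring
  rw [h5, mul_one, Real.norm_eq_abs, sq_abs] at h4
  linarith

end Pool.Agent.Lib_helper47.R
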