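import Pool.Agent.Lib_helper47.RLine
import Pool.Agent.Lib_helper47.RMatch

/-!
# Limits along ultrafilters: rigidity
-/

namespace Pool.Agent.Lib_helper47.R

open Filter Set
open scoped Topology

lemma ultra_limit {Y : Type*} (U : Ultrafilter Y) {f : Y → ℝ} {M : ℝ}
    (h : ∀ᶠ y in (U : Filter Y), |f y| ≤ M) : ∃ l, Tendsto f U (𝓝 l) := by
  have h1 : (U.map f : Filter ℝ) ≤ 𝓟 (Icc (-M) M) := by
    rw [le_principal_iff]
    change f ⁻¹' Icc (-M) M ∈ U
    filter_upwards [h] with y hy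
    exact abs_le.mp hy
  obtain ⟨l, -, hl⟩ := isCompact_Icc.ultrafilter_le_nhds (U.map f) h1
  exact ⟨l, hl⟩

variable {H : Type*} [NormedAddCommGroup H] [InnerProductSpace ℝ H] [CompleteSpace H]

/-- A linear functional dominated by `‖W v‖` is represented by a vector of the closed range. -/
lemma riesz_range {E : Type*} [AddCommGroup E] [Module ℝ E] (W : E →ₗ[ℝ] H) (G : E →ₗ[ℝ] ℝ) {C : ℝ}
    (hG : ∀ v, |G v| ≤ C * ‖W v‖) :
    ∃ g ∈ (LinearMap.range W).topologicalClosure, ∀ v, G v = inner ℝ (W v) g := by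
  set S := (LinearMap.range W).topologicalClosure with hS
  have : CompleteSpace S := (Submodule.isClosed_topologicalClosure _).completeSpace_coe
  let e : E →ₗ[ℝ] S := W.codRestrict S
    (fun v => (Submodule.le_topologicalClosure _) (LinearMap.mem_range_self W v))
  have hed : DenseRange e := by
    intro s
    rw [mem_closure_iff_nhds_basis Metric.nhds_basis_ball]
    intro ε hε
    have h1 : (s : H) ∈ closure ((LinearMap.range W : Submodule ℝ H) : Set H) := s.2
    rw [Metric.mem_closure_iff] at h1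
    obtain ⟨b, ⟨v, rfl⟩, hb⟩ := h1 ε hε
    refine ⟨e v, ⟨v, rfl⟩, ?_⟩
    rw [Metric.mem_ball, dist_comm]
    exact hb
  let L := LinearMap.extendOfNorm G e
  have hL : ∀ v, L (e v) = G v := fun v =>
    LinearMap.extendOfNorm_eq hed ⟨C, fun x => by rw [Real.norm_eq_abs]; exact hG x⟩ v
  refine ⟨((InnerProductSpace.toDual ℝ S).symm L : S), Subtype.coe_prop _, fun v => ?_⟩
  have h2 := InnerProductSpace.toDual_symm_apply (𝕜 := ℝ) (x := e v) (y := L)
  rw [← hL v, ← h2, real_inner_comm]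
  rfl

open Classical in
theorem rigidity {E Y : Type*} [AddCommGroup E] [Module ℝ E] (U : Ultrafilter Y)
    {c b : ℕ → ℝ} (hc : ∀ k, 0 < c k) (hcb : Summable fun k => c k * b k)
    (W : Y → E →ₗ[ℝ] H) (φ : Y → ℕ → H) (W0 : E →ₗ[ℝ] H) (z : ℕ → H)
    (hφb : ∀ y k, ‖φ y k‖ ≤ b k)
    (hgram : ∀ j k, Tendsto (fun y => inner ℝ (φ y j) (φ y k)) U (𝓝 (inner ℝ (z j) (z k))))
    (hN : ∀ v, Tendsto (fun y => ‖W y v‖ + T c (φ y) (W y v)) U (𝓝 (‖W0 v‖ + T c z (W0 v))))
    (hz : ∀ k, z k ∈ (LinearMap.range W0).topologicalClosure)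
    (hlac : ∀ᶠ k in atTop, 0 < c k * ‖z k‖ ∧ c (k + 1) * ‖z (k + 1)‖ ≤ c k * ‖z k‖ / 4)
    (hoc : ∀ y ∈ (LinearMap.range W0).topologicalClosure, y ≠ 0 →
      ∀ᶠ k in atTop, inner ℝ (z k) y ≠ 0)
    (hw : ∀ ψ ∈ (LinearMap.range W0).topologicalClosure,
      ∃ w ∈ (LinearMap.range W0).topologicalClosure, w ≠ 0 ∧ inner ℝ w ψ = 0) :
    ∃ σ : ℝ, (σ = 1 ∨ σ = -1) ∧
      (∀ v k, Tendsto (fun y => inner ℝ (W y v) (φ y k)) U (𝓝 (σ * inner ℝ (W0 v) (z k)))) ∧
      (∀ v, Tendsto (fun y => ‖W y v‖) U (𝓝 ‖W0 v‖)) := by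
  set S := (LinearMap.range W0).topologicalClosure with hS
  have hSc : IsClosed (S : Set H) := Submodule.isClosed_topologicalClosure _
  have hW0S : ∀ v, W0 v ∈ S := fun v =>
    (Submodule.le_topologicalClosure _) (LinearMap.mem_range_self W0 v)
  have hbn : ∀ k, 0 ≤ b k := by
    intro k
    have : (U : Filter Y).NeBot := inferInstance
    obtain ⟨y, -⟩ := (Filter.Eventually.of_forall (fun _ => trivial) : ∀ᶠ y in (U : Filter Y), True).exists
    exact (norm_nonneg _).trans (hφb y k)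
  -- norms of the φ
  have hφn : ∀ k, Tendsto (fun y => ‖φ y k‖) U (𝓝 ‖z k‖) := by
    intro k
    have h1 := (hgram k k).sqrt
    simp_rw [real_inner_self_eq_norm_sq, Real.sqrt_sq (norm_nonneg _)] at h1
    exact h1
  have hzb : ∀ k, ‖z k‖ ≤ b k := fun k => le_of_tendsto' (hφn k) (fun y => hφb y k)
  have hsz : Summable fun k => c k * ‖z k‖ :=
    Summable.of_nonneg_of_le (fun k => mul_nonneg (hc k).le (norm_nonneg _))
      (fun k => mul_le_mul_of_nonneg_left (hzb k) (hc k).le) hcb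
  have hsφ : ∀ y, Summable fun k => c k * ‖φ y k‖ := fun y =>
    Summable.of_nonneg_of_le (fun k => mul_nonneg (hc k).le (norm_nonneg _))
      (fun k => mul_le_mul_of_nonneg_left (hφb y k) (hc k).le) hcb
  set C : ℝ := 1 + ∑' k, c k * b k with hC
  have hC1 : 1 ≤ C := by
    have : 0 ≤ ∑' k, c k * b k := tsum_nonneg fun k => mul_nonneg (hc k).le (hbn k)
    linarith
  have hTb : ∀ (ζ : ℕ → H), (∀ k, ‖ζ k‖ ≤ b k) → ∀ h, T c ζ h ≤ (∑' k, c k * b k) * ‖h‖ := by
    intro ζ hζ h
    have hs : Summable fun k => c k * ‖ζ k‖ :=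
      Summable.of_nonneg_of_le (fun k => mul_nonneg (hc k).le (norm_nonneg _))
      (fun k => mul_le_mul_of_nonneg_left (hζ k) (hc k).le) hcb
    unfold T
    rw [← tsum_mul_right]
    refine (T_summable hc hs h).tsum_le_tsum (fun k => ?_) (hcb.mul_right _)
    calc c k * |inner ℝ h (ζ k)| ≤ c k * (‖h‖ * ‖ζ k‖) :=
          mul_le_mul_of_nonneg_left (abs_real_inner_le_norm _ _) (hc k).le
      _ ≤ c k * (‖h‖ * b k) := by
          have := (hc k).le
          gcongr
          exact hζ k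
      _ = c k * b k * ‖h‖ := by ring
  have hTnn : ∀ (ζ : ℕ → H) h, 0 ≤ T c ζ h := fun ζ h =>
    tsum_nonneg fun k => mul_nonneg (hc k).le (abs_nonneg _)
  -- bounds
  have hWb : ∀ v, ∀ᶠ y in (U : Filter Y), ‖W y v‖ ≤ (‖W0 v‖ + T c z (W0 v)) + 1 := by
    intro v
    filter_upwards [(hN v).eventually (gt_mem_nhds (lt_add_one _))] with y hy
    have := hTnn (φ y) (W y v)
    linarith
  have hlimq : ∀ v, ∃ l, Tendsto (fun y => ‖W y v‖) U (𝓝 l) := by
    intro v
    refine ultra_limit U (M := (‖W0 v‖ + T c z (W0 v)) + 1) ?_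
    filter_upwards [hWb v] with y hy
    rw [abs_of_nonneg (norm_nonneg _)]
    exact hy
  choose q hq using hlimq
  have hlimG : ∀ k v, ∃ l, Tendsto (fun y => inner ℝ (W y v) (φ y k)) U (𝓝 l) := by
    intro k v
    refine ultra_limit U (M := ((‖W0 v‖ + T c z (W0 v)) + 1) * b k) ?_
    filter_upwards [hWb v] with y hy
    calc |inner ℝ (W y v) (φ y k)| ≤ ‖W y v‖ * ‖φ y k‖ := abs_real_inner_le_norm _ _
      _ ≤ _ := by
          have := hTnn z (W0 v)
          gcongr
          exact hφb y k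
  choose G hG using hlimG
  have hqnn : ∀ v, 0 ≤ q v := fun v => ge_of_tendsto' (hq v) (fun y => norm_nonneg _)
  -- linearity
  have hGadd : ∀ k v w, G k (v + w) = G k v + G k w := by
    intro k v w
    refine tendsto_nhds_unique (hG k (v + w)) ?_
    have := (hG k v).add (hG k w)
    refine this.congr fun y => ?_
    rw [map_add, inner_add_left]
  have hGsmul : ∀ k (r : ℝ) v, G k (r • v) = r * G k v := by
    intro k r v
    refine tendsto_nhds_unique (hG k (r • v)) ?_
    refine ((hG k v).const_mul r).congr fun y => ?_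
    rw [map_smul, inner_smul_left]; simp
  let Glin : ℕ → E →ₗ[ℝ] ℝ := fun k =>
    { toFun := G k, map_add' := hGadd k, map_smul' := fun r v => by simpa using hGsmul k r v }
  -- relation between the norms
  have hNq : ∀ v, ‖W0 v‖ + T c z (W0 v) = q v + ∑' k, c k * |G k v| := by
    intro v
    refine tendsto_nhds_unique (hN v) ((hq v).add ?_)
    unfold T
    refine tendsto_tsum_of_dominated_convergence
      (bound := fun k => ((‖W0 v‖ + T c z (W0 v)) + 1) * (c k * b k)) (hcb.mul_left _) ?_ ?_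
    · intro k
      exact ((hG k v).abs).const_mul _
    · filter_upwards [hWb v] with y hy k
      rw [norm_mul, Real.norm_of_nonneg (hc k).le, Real.norm_eq_abs, abs_abs]
      have h8 := hTnn z (W0 v)
      have h9 := (hc k).le
      calc c k * |inner ℝ (W y v) (φ y k)| ≤ c k * (‖W y v‖ * ‖φ y k‖) :=
            mul_le_mul_of_nonneg_left (abs_real_inner_le_norm _ _) (hc k).le
        _ ≤ c k * (((‖W0 v‖ + T c z (W0 v)) + 1) * b k) := by
            gcongr
            exact hφb y k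
        _ = _ := by ring
  have hGq : ∀ k v, |G k v| ≤ q v * ‖z k‖ := by
    intro k v
    exact le_of_tendsto_of_tendsto' (hG k v).abs ((hq v).mul (hφn k))
      (fun y => abs_real_inner_le_norm _ _)
  have hqC : ∀ v, ‖W0 v‖ ≤ C * q v := by
    intro v
    have h1 : ‖W0 v‖ + T c z (W0 v) ≤ C * q v := by
      refine le_of_tendsto_of_tendsto' (hN v) ((hq v).const_mul C) fun y => ?_
      have := hTb (φ y) (hφb y) (W y v)
      rw [hC]; linarith
    linarith [hTnn z (W0 v)]
  have hqN : ∀ v, q v ≤ C * ‖W0 v‖ := by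
    intro v
    have h1 : q v ≤ ‖W0 v‖ + T c z (W0 v) := by
      rw [hNq v]
      have : 0 ≤ ∑' k, c k * |G k v| := tsum_nonneg fun k => mul_nonneg (hc k).le (abs_nonneg _)
      linarith
    have h2 := hTb z hzb (W0 v)
    rw [hC]; linarith
  -- representing vectors
  have hrep : ∀ k, ∃ g ∈ S, ∀ v, G k v = inner ℝ (W0 v) g := by
    intro k
    refine riesz_range W0 (Glin k) (C := b k * C) fun v => ?_
    calc |G k v| ≤ q v * ‖z k‖ := hGq k v
      _ ≤ (C * ‖W0 v‖) * b k := by
          have := hqnn v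
          gcongr
          · exact hqN v
          · exact hzb k
      _ = b k * C * ‖W0 v‖ := by ring
  choose g hgS hg using hrep
  -- extension by density
  have hdens : ∀ {P : H → Prop}, IsClosed {h | P h} → (∀ v, P (W0 v)) → ∀ h ∈ S, P h := by
    intro P hP hv h hh
    have h1 : (S : Set H) ⊆ {h | P h} := by
      rw [hS, Submodule.topologicalClosure_coe]
      refine closure_minimal ?_ hP
      rintro _ ⟨v, rfl⟩
      exact hv v
    exact h1 hh
  have hgb : ∀ k, ‖g k‖ ≤ C * b k := by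
    intro k
    have h1 : ∀ h ∈ S, |inner ℝ h (g k)| ≤ (C * b k) * ‖h‖ := by
      refine hdens (isClosed_le (by fun_prop) (by fun_prop)) fun v => ?_
      rw [← hg k v]
      calc |G k v| ≤ q v * ‖z k‖ := hGq k v
      _ ≤ (C * ‖W0 v‖) * b k := by
          have := hqnn v
          gcongr
          · exact hqN v
          · exact hzb k
      _ = _ := by ring
    have h2 := h1 (g k) (hgS k)
    rw [real_inner_self_eq_norm_sq, abs_of_nonneg (by positivity)] at h2
    rcases eq_or_lt_of_le (norm_nonneg (g k)) with h3 | h3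
    · rw [← h3]
      have := hbn k
      positivity
    · nlinarith
  have hsg : Summable fun k => c k * ‖g k‖ := by
    refine Summable.of_nonneg_of_le (fun k => mul_nonneg (hc k).le (norm_nonneg _))
      (fun k => ?_) (hcb.mul_left C)
    calc c k * ‖g k‖ ≤ c k * (C * b k) := mul_le_mul_of_nonneg_left (hgb k) (hc k).le
      _ = _ := by ring
  set Q : H → ℝ := fun h => ‖h‖ + T c z h - T c g h with hQ
  have hTcont : ∀ {ζ : ℕ → H}, (Summable fun k => c k * ‖ζ k‖) → Continuous (T c ζ) := by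
    intro ζ hζ
    have h1 : ∀ x y, |T c ζ x - T c ζ y| ≤ (∑' k, c k * ‖ζ k‖) * ‖x - y‖ := by
      intro x y
      unfold T
      rw [← (T_summable hc hζ x).tsum_sub (T_summable hc hζ y), ← tsum_mul_right]
      rw [← Real.norm_eq_abs]
      refine tsum_of_norm_bounded (hζ.mul_right _).hasSum fun k => ?_
      rw [← mul_sub, norm_mul, Real.norm_of_nonneg (hc k).le, Real.norm_eq_abs, mul_assoc]
      refine mul_le_mul_of_nonneg_left ?_ (hc k).le
      calc _ ≤ |inner ℝ x (ζ k) - inner ℝ y (ζ k)| := abs_abs_sub_abs_le _ _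
        _ = |inner ℝ (x - y) (ζ k)| := by rw [inner_sub_left]
        _ ≤ ‖x - y‖ * ‖ζ k‖ := abs_real_inner_le_norm _ _
        _ = _ := mul_comm _ _
    have : LipschitzWith ⟨∑' k, c k * ‖ζ k‖,
        tsum_nonneg fun k => mul_nonneg (hc k).le (norm_nonneg _)⟩ (T c ζ) := by
      refine LipschitzWith.of_dist_le_mul fun x y => ?_
      rw [Real.dist_eq, dist_eq_norm]
      exact h1 x y
    exact this.continuous
  have hQc : Continuous Q := (continuous_norm.add (hTcont hsz)).sub (hTcont hsg)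
  have hQW : ∀ v, Q (W0 v) = q v := by
    intro v
    have h1 : T c g (W0 v) = ∑' k, c k * |G k v| := by
      unfold T
      exact tsum_congr fun k => by rw [hg k v]
    simp only [hQ, h1]
    linarith [hNq v]
  -- properties of q
  have hqpar : ∀ v w, q (v + w) ^ 2 + q (v - w) ^ 2 = 2 * q v ^ 2 + 2 * q w ^ 2 := by
    intro v w
    refine tendsto_nhds_unique (((hq (v + w)).pow 2).add ((hq (v - w)).pow 2)) ?_
    refine ((((hq v).pow 2).const_mul 2).add (((hq w).pow 2).const_mul 2)).congr fun y => ?_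
    have := parallelogram_law_with_norm ℝ (W y v) (W y w)
    rw [map_add, map_sub]
    nlinarith
  have hqhom : ∀ v (t : ℝ), q (t • v) ^ 2 = t ^ 2 * q v ^ 2 := by
    intro v t
    refine tendsto_nhds_unique ((hq (t • v)).pow 2) ?_
    refine (((hq v).pow 2).const_mul (t ^ 2)).congr fun y => ?_
    rw [map_smul, norm_smul, mul_pow, Real.norm_eq_abs, sq_abs]
  have hqmid : ∀ v w, 2 * q v ≤ q (v + w) + q (v - w) := by
    intro v w
    refine le_of_tendsto_of_tendsto' ((hq v).const_mul 2) ((hq (v + w)).add (hq (v - w))) fun y => ?_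
    have : (2 : ℝ) • W y v = W y (v + w) + W y (v - w) := by
      rw [map_add, map_sub, two_smul]; abel
    calc 2 * ‖W y v‖ = ‖(2 : ℝ) • W y v‖ := by rw [norm_smul]; norm_num
      _ ≤ _ := by rw [this]; exact norm_add_le _ _
  have hQpos : ∀ h ∈ S, h ≠ 0 → 0 < Q h := by
    intro h hh hne
    have h1 : ∀ h ∈ S, ‖h‖ ≤ C * Q h :=
      hdens (isClosed_le continuous_norm (continuous_const.mul hQc)) fun v => by
        rw [hQW]; exact hqC v
    have h2 := h1 h hh
    have h3 : 0 < ‖h‖ := norm_pos_iff.mpr hne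
    by_contra h4
    push Not at h4
    nlinarith
  have hpar : ∀ h ∈ S, ∀ u ∈ S, Q (h + u) ^ 2 + Q (h - u) ^ 2 = 2 * Q h ^ 2 + 2 * Q u ^ 2 := by
    have h1 : ∀ v, ∀ u ∈ S, Q (W0 v + u) ^ 2 + Q (W0 v - u) ^ 2 = 2 * Q (W0 v) ^ 2 + 2 * Q u ^ 2 := by
      intro v
      refine hdens (isClosed_eq (by fun_prop) (by fun_prop)) fun w => ?_
      rw [← map_add, ← map_sub, hQW, hQW, hQW, hQW]
      exact hqpar v w
    intro h hh u hu
    refine hdens (P := fun h => Q (h + u) ^ 2 + Q (h - u) ^ 2 = 2 * Q h ^ 2 + 2 * Q u ^ 2)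
      (isClosed_eq (by fun_prop) (by fun_prop)) (fun v => h1 v u hu) h hh
  have hhom : ∀ h ∈ S, ∀ t : ℝ, Q (t • h) ^ 2 = t ^ 2 * Q h ^ 2 := by
    intro h hh t
    refine hdens (P := fun h => Q (t • h) ^ 2 = t ^ 2 * Q h ^ 2)
      (isClosed_eq (by fun_prop) (by fun_prop)) (fun v => ?_) h hh
    rw [← map_smul, hQW, hQW]; exact hqhom v t
  have hmid : ∀ h ∈ S, ∀ u ∈ S, 2 * Q h ≤ Q (h + u) + Q (h - u) := by
    have h1 : ∀ v, ∀ u ∈ S, 2 * Q (W0 v) ≤ Q (W0 v + u) + Q (W0 v - u) := by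
      intro v
      refine hdens (isClosed_le (by fun_prop) (by fun_prop)) fun w => ?_
      rw [← map_add, ← map_sub, hQW, hQW, hQW]
      exact hqmid v w
    intro h hh u hu
    exact hdens (P := fun h => 2 * Q h ≤ Q (h + u) + Q (h - u))
      (isClosed_le (by fun_prop) (by fun_prop)) (fun v => h1 v u hu) h hh
  have hCS : ∀ h ∈ S, ∀ k, |inner ℝ h (g k)| ≤ Q h * ‖z k‖ := by
    intro h hh k
    refine hdens (P := fun h => |inner ℝ h (g k)| ≤ Q h * ‖z k‖)
      (isClosed_le (by fun_prop) (by fun_prop)) (fun v => ?_) h hh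
    rw [← hg k v, hQW]; exact hGq k v
  obtain ⟨D1, D2, D3⟩ := decomposition_unique hSc hc hz hgS hsz hsg (Q := Q) (fun h _ => rfl)
    hQpos hpar hhom hmid hw hCS
  have hqW : ∀ v, q v = ‖W0 v‖ := fun v => by rw [← hQW v]; exact D1 _ (hW0S v)
  -- Gram matrices
  have hGr : ∀ j k, inner ℝ (g j) (g k) = inner ℝ (z j) (z k) := by
    intro j k
    have hbd : ∀ ε : ℝ, 0 < ε → |inner ℝ (g j) (g k) - inner ℝ (z j) (z k)| ≤
        ε * (b k + ‖g k‖) := by
      intro ε hε
      have h1 : g j ∈ closure ((LinearMap.range W0 : Submodule ℝ H) : Set H) := hgS j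
      rw [Metric.mem_closure_iff] at h1
      obtain ⟨_, ⟨v, rfl⟩, hv⟩ := h1 ε hε
      rw [dist_eq_norm] at hv
      have hX : Tendsto (fun y => ‖W y v - φ y j‖) U (𝓝 ‖W0 v - g j‖) := by
        have h2 : Tendsto (fun y => ‖W y v‖ ^ 2 - 2 * inner ℝ (W y v) (φ y j) + ‖φ y j‖ ^ 2) U
            (𝓝 (q v ^ 2 - 2 * G j v + ‖z j‖ ^ 2)) :=
          (((hq v).pow 2).sub ((hG j v).const_mul 2)).add ((hφn j).pow 2)
        have h3 := h2.sqrt
        have e1 : q v ^ 2 - 2 * G j v + ‖z j‖ ^ 2 = ‖W0 v - g j‖ ^ 2 := by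
          rw [norm_sub_sq_real, hqW, ← D2 j, hg j v]
        rw [e1, Real.sqrt_sq (norm_nonneg _)] at h3
        refine h3.congr fun y => ?_
        rw [← norm_sub_sq_real, Real.sqrt_sq (norm_nonneg _)]
      have h4 : |G k v - inner ℝ (z j) (z k)| ≤ ‖W0 v - g j‖ * b k := by
        refine le_of_tendsto_of_tendsto' ((hG k v).sub (hgram j k)).abs (hX.mul_const (b k))
          fun y => ?_
        rw [← inner_sub_left]
        calc _ ≤ ‖W y v - φ y j‖ * ‖φ y k‖ := abs_real_inner_le_norm _ _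
          _ ≤ _ := by gcongr; exact hφb y k
      have h5 : |inner ℝ (g j) (g k) - G k v| ≤ ‖W0 v - g j‖ * ‖g k‖ := by
        rw [hg k v, ← inner_sub_left, norm_sub_rev]
        exact abs_real_inner_le_norm _ _
      have h6 : ‖W0 v - g j‖ ≤ ε := by rw [norm_sub_rev]; exact hv.le
      calc _ = |(inner ℝ (g j) (g k) - G k v) + (G k v - inner ℝ (z j) (z k))| := by
            congr 1; ring
        _ ≤ _ := abs_add_le _ _
        _ ≤ ‖W0 v - g j‖ * ‖g k‖ + ‖W0 v - g j‖ * b k := add_le_add h5 h4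
        _ ≤ ε * ‖g k‖ + ε * b k := by
            have := hbn k
            gcongr
        _ = _ := by ring
    have h7 : |inner ℝ (g j) (g k) - inner ℝ (z j) (z k)| ≤ 0 := by
      have hnn : 0 ≤ b k + ‖g k‖ := add_nonneg (hbn k) (norm_nonneg _)
      refine le_of_forall_pos_le_add fun δ hδ => ?_
      have := hbd (δ / (b k + ‖g k‖ + 1)) (by positivity)
      rw [zero_add]
      refine this.trans ?_
      rw [div_mul_eq_mul_div, div_le_iff₀ (by positivity)]
      nlinarith
    have h8 := abs_nonpos_iff.mp h7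
    linarith
  obtain ⟨σ, hσ, hσg⟩ := matching (S := S) (m := fun k => c k * ‖z k‖) hz hgS hGr hsz
    (fun k => mul_nonneg (hc k).le (norm_nonneg _)) (fun k hk => by rw [hk, norm_zero, mul_zero])
    hlac (fun ψ hψ hψ0 => by
      have := D3 ψ hψ hψ0
      simp_rw [D2] at this
      exact this) hoc hw
  refine ⟨σ, hσ, fun v k => ?_, fun v => ?_⟩
  · have := hG k v
    rw [hg k v, hσg k, inner_smul_right] at this
    exact this
  · have := hq v
    rw [hqW v] at this
    exact this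

end Pool.Agent.Lib_helper47.R
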